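import Pool.Agent.Q9.KE.Base

/-!
# Commuting coefficients
-/

set_option autoImplicit false

namespace Q9.KE

open Pool.Agent.Y462.SS (Wr)
open Monoid Equiv

section wreath

variable {G A C : Type} [Group G] [CommGroup A] [Group C]

/-- an abelian group maps to the wreath product over the cosets of a subgroup, diagonally on the
subgroup -/
theorem exists_wreath (k : C →* A) (hk : Function.Injective k) (j : C →* G) :
    ∃ Θ : A →* Wr (A ⧸ k.range) G, ∀ c, Θ (k c) = dg (A ⧸ k.range) G (j c) := by
  classical
  have hout : ∀ x : A ⧸ k.range, ((Quotient.out x : A) : A ⧸ k.range) = x :=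
    fun x => Quotient.out_eq x
  have hex : ∀ (a : A) (x : A ⧸ k.range), ∃ c : C,
      k c = (Quotient.out ((a : A ⧸ k.range) * x))⁻¹ * a * Quotient.out x := by
    intro a x
    have h1 : (Quotient.out ((a : A ⧸ k.range) * x))⁻¹ * a * Quotient.out x ∈ k.range := by
      rw [← QuotientGroup.eq_one_iff]
      rw [QuotientGroup.mk_mul, QuotientGroup.mk_mul, QuotientGroup.mk_inv, hout, hout]
      rw [mul_assoc, inv_mul_cancel]
    exact h1
  choose γ hγ using hex
  have hmul : ∀ a b x, γ (a * b) x = γ a ((b : A ⧸ k.range) * x) * γ b x := by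
    intro a b x
    apply hk
    rw [map_mul, hγ, hγ, hγ, QuotientGroup.mk_mul, mul_assoc (a : A ⧸ k.range)]
    group
  refine ⟨MonoidHom.mk' (fun a => ⟨fun x => j (γ a x), Equiv.mulLeft (a : A ⧸ k.range)⟩) ?_, ?_⟩
  · intro a b
    apply Wr.ext
    · funext x
      show j (γ (a * b) x) = j (γ a ((b : A ⧸ k.range) * x)) * j (γ b x)
      rw [hmul, map_mul]
    · apply Equiv.ext
      intro x
      show ((a * b : A) : A ⧸ k.range) * x = (a : A ⧸ k.range) * ((b : A ⧸ k.range) * x)
      rw [QuotientGroup.mk_mul, mul_assoc]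
  · intro c
    have h1 : ((k c : A) : A ⧸ k.range) = 1 := (QuotientGroup.eq_one_iff _).2 ⟨c, rfl⟩
    apply Wr.ext
    · funext x
      show j (γ (k c) x) = j c
      congr 1
      apply hk
      rw [hγ, h1, one_mul, mul_comm _ (k c), mul_assoc, inv_mul_cancel, mul_one]
    · apply Equiv.ext
      intro x
      show ((k c : A) : A ⧸ k.range) * x = x
      rw [h1, one_mul]

end wreath

section solve

variable {G C ι κ : Type} [Group G] [CommGroup C] [DecidableEq ι] [Fintype κ]

/-- the map to the abelian group on the coefficients and the unknowns -/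
def tot (C ι : Type) [CommGroup C] [DecidableEq ι] :
    Coprod C (FreeGroup ι) →* C × (ι → Multiplicative ℤ) :=
  Coprod.lift (MonoidHom.inl _ _)
    (FreeGroup.lift (fun k => (1, fun j => if k = j then Multiplicative.ofAdd (1 : ℤ) else 1)))

theorem tot_snd (x : Coprod C (FreeGroup ι)) (j : ι) : (tot C ι x).2 j = eta C j x := by
  have h1 : ((Pi.evalMonoidHom (fun _ : ι => Multiplicative ℤ) j).comp
      ((MonoidHom.snd C (ι → Multiplicative ℤ)).comp (tot C ι))) = eta C j := by
    apply Coprod.hom_ext
    · ext c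
      simp [tot, eta]
    · ext k
      simp only [tot, eta, MonoidHom.comp_apply, Coprod.lift_apply_inr, FreeGroup.lift_apply_of]
      rfl
  exact DFunLike.congr_fun h1 x

/-- the subgroup of the relations -/
def rel (v : κ → Coprod C (FreeGroup ι)) :
    (κ → Multiplicative ℤ) →* C × (ι → Multiplicative ℤ) where
  toFun z := ∏ i, (tot C ι (v i)) ^ (Multiplicative.toAdd (z i))
  map_one' := by simp
  map_mul' z z' := by
    rw [← Finset.prod_mul_distrib]
    apply Finset.prod_congr rfl
    intro i _
    rw [Pi.mul_apply, toAdd_mul, zpow_add]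

/-- a system with commuting coefficients and independent rows has a solution in an abelian group -/
theorem inj_of_rows (v : κ → Coprod C (FreeGroup ι))
    (hrow : ∀ z : κ → ℤ, (∀ j, ∑ i, z i * Multiplicative.toAdd (eta C j (v i)) = 0) → z = 0) :
    Function.Injective ((QuotientGroup.mk' (rel v).range).comp
      (MonoidHom.inl C (ι → Multiplicative ℤ))) := by
  rw [injective_iff_map_eq_one]
  intro c hc
  have h1 : (c, (1 : ι → Multiplicative ℤ)) ∈ (rel v).range := (QuotientGroup.eq_one_iff _).1 hc
  obtain ⟨z, hz⟩ := h1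
  have h2 : (fun i => Multiplicative.toAdd (z i)) = 0 := by
    apply hrow
    intro j
    have h3 : (rel v z).2 j = 1 := by
      rw [hz]
      rfl
    have h4 : (rel v z).2 j = ∏ i, (eta C j (v i)) ^ (Multiplicative.toAdd (z i)) := by
      show (∏ i, (tot C ι (v i)) ^ (Multiplicative.toAdd (z i))).2 j = _
      rw [Prod.snd_prod, Finset.prod_apply]
      apply Finset.prod_congr rfl
      intro i _
      rw [← tot_snd]
      rfl
    rw [h4] at h3
    have h5 := congrArg Multiplicative.toAdd h3
    rw [toAdd_prod, toAdd_one] at h5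
    rw [← h5]
    apply Finset.sum_congr rfl
    intro i _
    rw [toAdd_zpow, smul_eq_mul]
  have h6 : rel v z = 1 := by
    show ∏ i, (tot C ι (v i)) ^ (Multiplicative.toAdd (z i)) = 1
    apply Finset.prod_eq_one
    intro i _
    have h7 : Multiplicative.toAdd (z i) = 0 := congrFun h2 i
    rw [h7, zpow_zero]
  rw [h6] at hz
  exact (congrArg Prod.fst hz).symm

/-- the solution in a wreath product -/
theorem solve_comm (j : C →* G) (v : κ → Coprod C (FreeGroup ι))
    (hrow : ∀ z : κ → ℤ, (∀ j, ∑ i, z i * Multiplicative.toAdd (eta C j (v i)) = 0) → z = 0) :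
    ∃ (X : Type) (_ : Nonempty X) (t : ι → Wr X G), ∀ i,
      Coprod.lift (dg X G) (FreeGroup.lift t) (Coprod.map j (MonoidHom.id (FreeGroup ι)) (v i)) =
        1 := by
  classical
  obtain ⟨Θ, hΘ⟩ := exists_wreath _ (inj_of_rows v hrow) j
  refine ⟨_, ⟨1⟩, fun k => Θ (QuotientGroup.mk' (rel v).range
    (1, fun j => if k = j then Multiplicative.ofAdd (1 : ℤ) else 1)), ?_⟩
  intro i
  have h1 : (Coprod.lift (dg _ G) (FreeGroup.lift fun k => Θ (QuotientGroup.mk' (rel v).range
      (1, fun j => if k = j then Multiplicative.ofAdd (1 : ℤ) else 1)))).comp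
        (Coprod.map j (MonoidHom.id (FreeGroup ι))) =
      Θ.comp ((QuotientGroup.mk' (rel v).range).comp (tot C ι)) := by
    apply Coprod.hom_ext
    · ext1 c
      simp only [MonoidHom.comp_apply, Coprod.map_apply_inl, Coprod.lift_apply_inl]
      rw [← hΘ]
      simp only [MonoidHom.comp_apply, tot, Coprod.lift_apply_inl]
    · apply FreeGroup.ext_hom
      intro k
      simp only [MonoidHom.comp_apply, Coprod.map_apply_inr, Coprod.lift_apply_inr,
        MonoidHom.id_apply, FreeGroup.lift_apply_of, tot]
  have h2 := DFunLike.congr_fun h1 (v i)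
  rw [MonoidHom.comp_apply] at h2
  rw [h2, MonoidHom.comp_apply, MonoidHom.comp_apply]
  have h3 : QuotientGroup.mk' (rel v).range (tot C ι (v i)) = 1 := by
    refine (QuotientGroup.eq_one_iff _).2 ⟨Pi.mulSingle i (Multiplicative.ofAdd 1), ?_⟩
    show ∏ i', (tot C ι (v i')) ^ (Multiplicative.toAdd
      ((Pi.mulSingle i (Multiplicative.ofAdd (1 : ℤ)) : κ → Multiplicative ℤ) i')) = _
    rw [Finset.prod_eq_single i]
    · rw [Pi.mulSingle_eq_same, toAdd_ofAdd, zpow_one]
    · intro i' _ hne
      rw [Pi.mulSingle_eq_of_ne hne, toAdd_one, zpow_zero]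
    · intro h
      exact absurd (Finset.mem_univ i) h
  rw [h3, map_one]

end solve

end Q9.KE
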