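import Pool.Agent.Y462.SS.Base

/-!
# Kervaire extensions: solutions in wreath products
-/

set_option autoImplicit false

namespace Q9.KE

open Pool.Agent.Y462.SS (Wr)
open Monoid Equiv

variable {G : Type} [Group G]

/-- the diagonal -/
def dg (X G : Type) [Group G] : G →* Wr X G where
  toFun g := ⟨fun _ => g, 1⟩
  map_one' := rfl
  map_mul' _ _ := rfl

theorem conj_p {X : Type} (a : Wr X G) (g : G) : (a * dg X G g * a⁻¹).p = 1 := by
  show a.p * 1 * a.p⁻¹ = 1
  rw [mul_one, mul_inv_cancel]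

theorem conj_s {X : Type} (a : Wr X G) (g : G) (x : X) : (a * dg X G g * a⁻¹).s x =
    a.s (a.p⁻¹ x) * g * (a.s (a.p⁻¹ x))⁻¹ := rfl

theorem prod_s {X : Type} (x : X) : ∀ L : List (Wr X G), (∀ a ∈ L, a.p = 1) →
    (L.prod).p = 1 ∧ (L.prod).s x = (L.map (fun a => a.s x)).prod
  | [], _ => ⟨rfl, rfl⟩
  | a :: L, h => by
    obtain ⟨h1, h2⟩ := prod_s x L (fun b hb => h b (List.mem_cons_of_mem _ hb))
    have h3 := h a List.mem_cons_self
    refine ⟨?_, ?_⟩
    · rw [List.prod_cons, Wr.mul_p, h1, h3, mul_one]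
    · rw [List.prod_cons, Wr.mul_s, h1, Perm.one_apply, h2, List.map_cons, List.prod_cons]

/-- a homomorphism to a wreath product which is the diagonal on `G` reflects products of
conjugacy classes -/
theorem reflect {X : Type} [Nonempty X] {H : Type} [Group H] (φ : G →* H) (Θ : H →* Wr X G)
    (hΘ : ∀ g, Θ (φ g) = dg X G g) (r : ℕ) (g : Fin r → G)
    (h : ∃ h : Fin r → H, (List.ofFn fun i => h i * φ (g i) * (h i)⁻¹).prod = 1) :
    ∃ x : Fin r → G, (List.ofFn fun i => x i * g i * (x i)⁻¹).prod = 1 := by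
  obtain ⟨h, hh⟩ := h
  obtain ⟨x₀⟩ := ‹Nonempty X›
  refine ⟨fun i => (Θ (h i)).s ((Θ (h i)).p⁻¹ x₀), ?_⟩
  have h1 : (List.ofFn fun i => Θ (h i) * dg X G (g i) * (Θ (h i))⁻¹).prod = 1 := by
    have h2 := congrArg Θ hh
    rw [map_one, map_list_prod, List.map_ofFn] at h2
    rw [← h2]
    congr 1
    apply List.ofFn_inj.2
    funext i
    show _ = Θ _
    rw [map_mul, map_mul, map_inv, hΘ]
  have h2 := (prod_s x₀ (List.ofFn fun i => Θ (h i) * dg X G (g i) * (Θ (h i))⁻¹) (by
    intro a ha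
    rw [List.mem_ofFn] at ha
    obtain ⟨i, rfl⟩ := ha
    exact conj_p _ _)).2
  rw [h1, Wr.one_s, List.map_ofFn] at h2
  exact h2.symm

/-- the exponent sum of the `j`-th unknown -/
def eta (G : Type) [Group G] {ι : Type} [DecidableEq ι] (j : ι) :
    Coprod G (FreeGroup ι) →* Multiplicative ℤ :=
  Coprod.lift 1 (FreeGroup.lift (fun k => if k = j then Multiplicative.ofAdd (1 : ℤ) else 1))

/-- solutions give homomorphisms of the extension -/
theorem exists_theta {X ι κ : Type} (w : κ → Coprod G (FreeGroup ι)) (t : ι → Wr X G)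
    (ht : ∀ i, Coprod.lift (dg X G) (FreeGroup.lift t) (w i) = 1) :
    ∃ Θ : (Coprod G (FreeGroup ι) ⧸ Subgroup.normalClosure (Set.range w)) →* Wr X G,
      ∀ g, Θ (((QuotientGroup.mk' (Subgroup.normalClosure (Set.range w))).comp Coprod.inl) g) =
        dg X G g := by
  refine ⟨QuotientGroup.lift _ (Coprod.lift (dg X G) (FreeGroup.lift t)) ?_, fun g => ?_⟩
  · intro x hx
    have h1 : Subgroup.normalClosure (Set.range w) ≤
        (Coprod.lift (dg X G) (FreeGroup.lift t)).ker := by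
      apply Subgroup.normalClosure_le_normal
      rintro _ ⟨i, rfl⟩
      exact ht i
    exact h1 hx
  · show Coprod.lift (dg X G) (FreeGroup.lift t) (Coprod.inl g) = _
    rw [Coprod.lift_apply_inl]

end Q9.KE
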