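import Pool.Agent.Q9.KE.Nil

/-!
# Solutions over groups of class two: one more right side
-/

set_option autoImplicit false

namespace Q9.KE

open Pool.Agent.Y462.SS (Wr)
open Monoid Equiv
open scoped IsMulCommutative

variable {ι : Type} [DecidableEq ι] [Fintype ι] {C : Type} [Group C]

/-- the commutators with `a`, in a group of class two -/
def om (hC : ∀ a b c : C, (a * b * a⁻¹ * b⁻¹) * c = c * (a * b * a⁻¹ * b⁻¹)) (a : C) :
    C →* Subgroup.center C where
  toFun b := ⟨a * b * a⁻¹ * b⁻¹, Subgroup.mem_center_iff.2 fun c => (hC a b c).symm⟩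
  map_one' := by
    apply Subtype.ext
    show a * 1 * a⁻¹ * 1⁻¹ = 1
    group
  map_mul' b c := by
    apply Subtype.ext
    show a * (b * c) * a⁻¹ * (b * c)⁻¹ = (a * b * a⁻¹ * b⁻¹) * (a * c * a⁻¹ * c⁻¹)
    have h1 := hC a c b
    calc a * (b * c) * a⁻¹ * (b * c)⁻¹ = (a * b * a⁻¹ * b⁻¹) * (b * (a * c * a⁻¹ * c⁻¹)) * b⁻¹ := by
          group
      _ = (a * b * a⁻¹ * b⁻¹) * ((a * c * a⁻¹ * c⁻¹) * b) * b⁻¹ := by rw [h1]
      _ = _ := by group

theorem om_val (hC : ∀ a b c : C, (a * b * a⁻¹ * b⁻¹) * c = c * (a * b * a⁻¹ * b⁻¹)) (a b : C) :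
    (om hC a b : C) = a * b * a⁻¹ * b⁻¹ := rfl

theorem om_self (hC : ∀ a b c : C, (a * b * a⁻¹ * b⁻¹) * c = c * (a * b * a⁻¹ * b⁻¹)) (a : C) :
    om hC a a = 1 := by
  apply Subtype.ext
  rw [om_val]
  show _ = 1
  group

theorem cen_comm (z : Subgroup.center C) (c : C) : (z : C) * c = c * z :=
  (Subgroup.mem_center_iff.1 z.2 c).symm

theorem conj_one (hC : ∀ a b c : C, (a * b * a⁻¹ * b⁻¹) * c = c * (a * b * a⁻¹ * b⁻¹)) (a b : C) :
    a * b * a⁻¹ = (om hC a b : C) * b := by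
  rw [om_val]
  group

theorem conj_zpow (hC : ∀ a b c : C, (a * b * a⁻¹ * b⁻¹) * c = c * (a * b * a⁻¹ * b⁻¹)) (a b : C)
    (k : ℤ) : a ^ k * b * a ^ (-k) = (((om hC a b) ^ k : Subgroup.center C) : C) * b := by
  induction k using Int.induction_on with
  | zero => simp
  | succ n ih =>
    have h1 : a ^ ((n : ℤ) + 1) * b * a ^ (-((n : ℤ) + 1)) =
        a * (a ^ (n : ℤ) * b * a ^ (-(n : ℤ))) * a⁻¹ := by group
    rw [h1, ih, zpow_add, zpow_one, Subgroup.coe_mul]
    have h2 : a * ((((om hC a b) ^ (n : ℤ) : Subgroup.center C) : C) * b) * a⁻¹ =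
        (((om hC a b) ^ (n : ℤ) : Subgroup.center C) : C) * (a * b * a⁻¹) := by
      rw [← mul_assoc a, ← cen_comm]
      group
    rw [h2, conj_one hC, mul_assoc]
  | pred n ih =>
    have h1 : a ^ (-(n : ℤ) - 1) * b * a ^ (-(-(n : ℤ) - 1)) =
        a⁻¹ * (a ^ (-(n : ℤ)) * b * a ^ (-(-(n : ℤ)))) * a := by group
    have h2 : a⁻¹ * ((((om hC a b) ^ (-(n : ℤ)) : Subgroup.center C) : C) * b) * a =
        (((om hC a b) ^ (-(n : ℤ)) : Subgroup.center C) : C) * (a⁻¹ * b * a) := by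
      rw [← mul_assoc a⁻¹, ← cen_comm]
      group
    have h3 : a⁻¹ * b * a = ((om hC a b : C))⁻¹ * b := by
      have h4 : a⁻¹ * ((om hC a b : C) * b) * a = b := by
        rw [← conj_one hC]
        group
      have h5 : a⁻¹ * ((om hC a b : C) * b) * a = (om hC a b : C) * (a⁻¹ * b * a) := by
        rw [← mul_assoc a⁻¹, ← cen_comm]
        group
      rw [h5] at h4
      rw [eq_inv_mul_iff_mul_eq, h4]
    rw [h1, ih, h2, h3, zpow_sub, zpow_one, Subgroup.coe_mul, Subgroup.coe_inv, mul_assoc]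

/-- what a solution has to satisfy -/
structure Sol (w : ι → FreeGroup ι) (φ : ι → (ι → ℤ) → ℤ) (g : ι → C)
    (F : ι → (ι → ℤ) → C) : Prop where
  per : ∀ i l x, F i (x + (cr ι (w l)).k) = F i x
  sol : ∀ j x, (Th F (w j)).s x = g j
  ab : ∀ (M : Type) [CommGroup M] (χ : C →* M) (i : ι) (x : ι → ℤ),
    χ (F i x) = ∏ j, χ (g j) ^ (φ j (x + Pi.single i 1) - φ j x)

theorem sol_step (hC : ∀ a b c : C, (a * b * a⁻¹ * b⁻¹) * c = c * (a * b * a⁻¹ * b⁻¹))
    (w : ι → FreeGroup ι) (φ : ι → (ι → ℤ) → ℤ) (r : ι → ι → ι → (ι → ℤ) → ℤ)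
    (h1 : ∀ j l x, φ j (x + (cr ι (w l)).k) = φ j x + (if j = l then 1 else 0))
    (h2 : ∀ j₀ i j₁ l x, r j₀ i j₁ (x + (cr ι (w l)).k) = r j₀ i j₁ x -
        (if j₀ = l then φ j₁ (x + Pi.single i 1) - φ j₁ x else 0))
    (h3 : ∀ j₀ j₁ j x, ∑ i, ac ι ((cr ι (w j)).a i) (r j₀ i j₁) x =
        if j = j₁ then - φ j₀ x else 0)
    (g : ι → C) (F : ι → (ι → ℤ) → C) (hF : Sol w φ g F) (j₀ : ι) (hj₀ : g j₀ = 1) (a : C) :
    Sol w φ (Function.update g j₀ a) (fun i x => a ^ (φ j₀ (x + Pi.single i 1)) * F i x *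
      (a ^ (φ j₀ x))⁻¹ * ((∏ j, om hC a (g j) ^ (r j₀ i j x) : Subgroup.center C) : C)) := by
  have hsol : ∀ j x, (Th (fun i x => a ^ (φ j₀ (x + Pi.single i 1)) * F i x *
      (a ^ (φ j₀ x))⁻¹ * ((∏ j, om hC a (g j) ^ (r j₀ i j x) : Subgroup.center C) : C)) (w j)).s x =
      a ^ (if j₀ = j then (1 : ℤ) else 0) * g j := by
    intro j x
    rw [Th_central, Th_gauge F (fun x => a ^ (φ j₀ x)), Th_pow, hF.sol, h1]
    simp only [h3]
    have h4 : ∏ j₁, om hC a (g j₁) ^ (if j = j₁ then - φ j₀ x else 0) =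
        om hC a (g j) ^ (- φ j₀ x) := by
      rw [Finset.prod_eq_single j]
      · rw [if_pos rfl]
      · intro l _ hl
        rw [if_neg (Ne.symm hl), zpow_zero]
      · intro h
        exact absurd (Finset.mem_univ j) h
    rw [h4, add_comm (φ j₀ x), zpow_add]
    have h5 := conj_zpow hC a (g j) (φ j₀ x)
    rw [zpow_neg] at h5
    rw [mul_assoc (a ^ _) (a ^ _) (g j), mul_assoc (a ^ _), h5, mul_assoc, ← cen_comm, ← mul_assoc
      ((_ : Subgroup.center C) : C), ← Subgroup.coe_mul, ← zpow_add, neg_add_cancel, zpow_zero,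
      Subgroup.coe_one, one_mul]
  refine ⟨?_, ?_, ?_⟩
  · intro i l x
    have e1 : x + (cr ι (w l)).k + Pi.single i 1 = x + Pi.single i 1 + (cr ι (w l)).k := by
      rw [add_assoc, add_comm (cr ι (w l)).k, ← add_assoc]
    rw [e1, h1, h1, hF.per]
    simp only [h2]
    by_cases h : j₀ = l
    · simp only [if_pos h]
      have h6 : ∏ j, om hC a (g j) ^ (r j₀ i j x - (φ j (x + Pi.single i 1) - φ j x)) =
          (∏ j, om hC a (g j) ^ (r j₀ i j x)) * (om hC a (F i x))⁻¹ := by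
        rw [hF.ab _ (om hC a) i x, ← Finset.prod_inv_distrib, ← Finset.prod_mul_distrib]
        apply Finset.prod_congr rfl
        intro j _
        rw [zpow_sub]
      have h7 : om hC a (a ^ (φ j₀ (x + Pi.single i 1)) * F i x * (a ^ (φ j₀ x))⁻¹) =
          om hC a (F i x) := by
        rw [map_mul, map_mul, map_inv, map_zpow, map_zpow, om_self, one_zpow, one_zpow, one_mul,
          inv_one, mul_one]
      have h8 := conj_one hC a (a ^ (φ j₀ (x + Pi.single i 1)) * F i x * (a ^ (φ j₀ x))⁻¹)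
      rw [h7] at h8
      rw [h6]
      have h9 : a ^ (φ j₀ (x + Pi.single i 1) + 1) * F i x * (a ^ (φ j₀ x + 1))⁻¹ =
          a * (a ^ (φ j₀ (x + Pi.single i 1)) * F i x * (a ^ (φ j₀ x))⁻¹) * a⁻¹ := by
        group
      rw [h9, h8, Subgroup.coe_mul, Subgroup.coe_inv]
      set Y := a ^ (φ j₀ (x + Pi.single i 1)) * F i x * (a ^ (φ j₀ x))⁻¹
      set R := ∏ j, om hC a (g j) ^ (r j₀ i j x)
      rw [cen_comm (om hC a (F i x)) Y, mul_assoc, ← Subgroup.coe_inv, ← cen_comm _ (R : C),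
        ← mul_assoc ((om hC a (F i x) : Subgroup.center C) : C), ← Subgroup.coe_mul, mul_inv_cancel,
        Subgroup.coe_one, one_mul]
    · simp only [if_neg h, add_zero, sub_zero]
  · intro j x
    rw [hsol]
    by_cases h : j = j₀
    · subst h
      rw [if_pos rfl, zpow_one, hj₀, mul_one, Function.update_self]
    · rw [if_neg (Ne.symm h), zpow_zero, one_mul, Function.update_of_ne h]
  · intro M _ χ i x
    have h4 : χ ((∏ j, om hC a (g j) ^ (r j₀ i j x) : Subgroup.center C) : C) = 1 := by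
      have h5 : ∀ b, χ (om hC a b : C) = 1 := by
        intro b
        rw [om_val, map_mul, map_mul, map_mul, map_inv, map_inv, mul_right_comm, mul_inv_cancel_right,
          mul_inv_cancel]
      have h6 := map_prod (χ.comp (Subgroup.center C).subtype)
        (fun j => om hC a (g j) ^ (r j₀ i j x)) Finset.univ
      rw [MonoidHom.comp_apply] at h6
      rw [← Subgroup.coe_subtype, h6]
      apply Finset.prod_eq_one
      intro j _
      rw [MonoidHom.comp_apply, map_zpow, map_zpow, Subgroup.coe_subtype, h5, one_zpow]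
    rw [map_mul, h4, mul_one, map_mul, map_mul, map_inv, map_zpow, map_zpow, hF.ab M χ i x]
    have h5 : ∏ j, χ (Function.update g j₀ a j) ^ (φ j (x + Pi.single i 1) - φ j x) =
        ∏ j, χ (g j) ^ (φ j (x + Pi.single i 1) - φ j x) *
          (if j = j₀ then χ a ^ (φ j₀ (x + Pi.single i 1) - φ j₀ x) else 1) := by
      apply Finset.prod_congr rfl
      intro j _
      by_cases h : j = j₀
      · subst h
        rw [Function.update_self, if_pos rfl, hj₀, map_one, one_zpow, one_mul]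
      · rw [Function.update_of_ne h, if_neg h, mul_one]
    rw [h5, Finset.prod_mul_distrib, Finset.prod_ite_eq' Finset.univ j₀, if_pos (Finset.mem_univ _),
      zpow_sub, mul_comm (χ a ^ _) (∏ j, _), mul_assoc]

/-- solutions over the lattice -/
theorem exists_sol (hC : ∀ a b c : C, (a * b * a⁻¹ * b⁻¹) * c = c * (a * b * a⁻¹ * b⁻¹))
    (w : ι → FreeGroup ι) (hw : (Em w).det ≠ 0) (g : ι → C) :
    ∃ (φ : ι → (ι → ℤ) → ℤ) (F : ι → (ι → ℤ) → C), Sol w φ g F := by
  obtain ⟨φ, r, h1, h2, h3⟩ := exists_frame w hw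
  refine ⟨φ, ?_⟩
  have key : ∀ (S : Finset ι) (g : ι → C), (∀ j, j ∉ S → g j = 1) → ∃ F, Sol w φ g F := by
    intro S
    induction S using Finset.induction_on with
    | empty =>
      intro g hg
      have hg' : g = fun _ => 1 := funext fun j => hg j (Finset.notMem_empty j)
      subst hg'
      refine ⟨fun _ _ => 1, fun _ _ _ => rfl, fun j x => ?_, fun M _ χ i x => ?_⟩
      · have h4 := Th_map (1 : C →* C) (fun _ _ => 1 : ι → (ι → ℤ) → C) (w j) x
        simpa using h4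
      · simp
    | insert j₀ S hj₀ ih =>
      intro g hg
      obtain ⟨F, hF⟩ := ih (Function.update g j₀ 1) (by
        intro j hj
        by_cases h : j = j₀
        · subst h
          rw [Function.update_self]
        · rw [Function.update_of_ne h]
          apply hg
          rw [Finset.mem_insert, not_or]
          exact ⟨h, hj⟩)
      have h4 := sol_step hC w φ r h1 h2 h3 _ F hF j₀ (Function.update_self _ _ _) (g j₀)
      rw [Function.update_idem, Function.update_eq_self] at h4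
      exact ⟨_, h4⟩
  exact key Finset.univ g fun j hj => absurd (Finset.mem_univ j) hj

/-- systems of words with right sides in a group of class two -/
theorem solve_words (hC : ∀ a b c : C, (a * b * a⁻¹ * b⁻¹) * c = c * (a * b * a⁻¹ * b⁻¹))
    (w : ι → FreeGroup ι) (hw : (Em w).det ≠ 0) (g : ι → C) :
    ∃ (X : Type) (_ : Nonempty X) (t : ι → Wr X C), ∀ j, FreeGroup.lift t (w j) = dg X C (g j) := by
  obtain ⟨φ, F, hF⟩ := exists_sol hC w hw g
  let K : AddSubgroup (ι → ℤ) := AddSubgroup.closure (Set.range fun l => (cr ι (w l)).k)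
  have hper : ∀ k ∈ K, ∀ i x, F i (x + k) = F i x := by
    intro k hk
    induction hk using AddSubgroup.closure_induction with
    | mem k hk =>
      obtain ⟨l, rfl⟩ := hk
      intro i x
      exact hF.per i l x
    | zero =>
      intro i x
      rw [add_zero]
    | add a b _ _ ha hb =>
      intro i x
      rw [← add_assoc, hb, ha]
    | neg a _ ha =>
      intro i x
      have h1 := ha i (x + -a)
      rw [neg_add_cancel_right] at h1
      exact h1.symm
  have hout : ∀ i (x : ι → ℤ), F i (Quotient.out (x : (ι → ℤ) ⧸ K)) = F i x := by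
    intro i x
    have h1 : -x + Quotient.out (x : (ι → ℤ) ⧸ K) ∈ K := by
      rw [← QuotientAddGroup.eq]
      exact (Quotient.out_eq _).symm
    have h2 := hper _ h1 i x
    rw [add_neg_cancel_left] at h2
    exact h2
  let t : ι → Wr ((ι → ℤ) ⧸ K) C := fun i => ⟨fun ξ => F i (Quotient.out ξ),
    Equiv.addRight ((Pi.single i 1 : ι → ℤ) : (ι → ℤ) ⧸ K)⟩
  have hp : ∀ u : FreeGroup ι, (FreeGroup.lift t u).p =
      Equiv.addRight (((cr ι u).k : ι → ℤ) : (ι → ℤ) ⧸ K) := by
    intro u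
    induction u using FreeGroup.induction_on with
    | C1 =>
      rw [map_one, map_one, Cr.one_k]
      ext ξ
      show ξ = ξ + ((0 : ι → ℤ) : (ι → ℤ) ⧸ K)
      rw [QuotientAddGroup.mk_zero, add_zero]
    | of i => rw [FreeGroup.lift_apply_of, cr_of]
    | inv_of i h =>
      rw [map_inv, map_inv, Wr.inv_p, h, Cr.inv_k]
      ext ξ
      show ξ + -(((cr ι (FreeGroup.of i)).k : ι → ℤ) : (ι → ℤ) ⧸ K) = _
      rfl
    | mul u v hu hv =>
      rw [map_mul, map_mul, Wr.mul_p, hu, hv, Cr.mul_k]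
      ext ξ
      show ξ + (((cr ι v).k : ι → ℤ) : (ι → ℤ) ⧸ K) + (((cr ι u).k : ι → ℤ) : (ι → ℤ) ⧸ K) =
        ξ + (((cr ι u).k + (cr ι v).k : ι → ℤ) : (ι → ℤ) ⧸ K)
      rw [QuotientAddGroup.mk_add, add_comm (((cr ι u).k : ι → ℤ) : (ι → ℤ) ⧸ K), add_assoc]
  have hs : ∀ (u : FreeGroup ι) (x : ι → ℤ),
      (FreeGroup.lift t u).s (x : (ι → ℤ) ⧸ K) = (Th F u).s x := by
    intro u
    induction u using FreeGroup.induction_on with
    | C1 =>
      intro x
      rw [map_one, map_one]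
      rfl
    | of i =>
      intro x
      rw [FreeGroup.lift_apply_of, Th_of]
      exact hout i x
    | inv_of i h =>
      intro x
      rw [map_inv, Wr.inv_s, hp, Th_inv_s, ← h]
      rfl
    | mul u v hu hv =>
      intro x
      rw [map_mul, Wr.mul_s, hv, hp, Th_mul_s, ← hu]
      rfl
  refine ⟨(ι → ℤ) ⧸ K, ⟨0⟩, t, fun j => ?_⟩
  apply Wr.ext
  · funext ξ
    obtain ⟨x, rfl⟩ := QuotientAddGroup.mk_surjective ξ
    rw [hs, hF.sol]
    rfl
  · rw [hp]
    have h1 : (((cr ι (w j)).k : ι → ℤ) : (ι → ℤ) ⧸ K) = 0 :=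
      (QuotientAddGroup.eq_zero_iff _).2 (AddSubgroup.subset_closure ⟨j, rfl⟩)
    rw [h1]
    ext ξ
    show ξ + 0 = ξ
    rw [add_zero]

end Q9.KE
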