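import Pool.Agent.Q9.KE.Main
import Pool.Agent.Q9.KE.Step

/-!
# Nonsingular systems with coefficients in a group of class two
-/

set_option autoImplicit false

namespace Q9.KE

open Pool.Agent.Y462.SS (Wr)
open Monoid Equiv

section general

variable {C : Type} [Group C] {n : ℕ}

/-- words in the unknowns and in finitely many elements of the group -/
def sg' (n : ℕ) (S : Finset C) : FreeGroup (Fin n ⊕ S) →* Coprod C (FreeGroup (Fin n)) :=
  FreeGroup.lift (Sum.elim (fun i => Coprod.inr (FreeGroup.of i)) (fun s => Coprod.inl (s : C)))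

theorem sg'_mono (S T : Finset C) (h : S ⊆ T) : (sg' n S).range ≤ (sg' n T).range := by
  rw [sg', sg', FreeGroup.range_lift_eq_closure, FreeGroup.range_lift_eq_closure]
  apply Subgroup.closure_mono
  rintro _ ⟨i | s, rfl⟩
  · exact ⟨Sum.inl i, rfl⟩
  · exact ⟨Sum.inr ⟨s, h s.2⟩, rfl⟩

theorem exists_sg' (u : Coprod C (FreeGroup (Fin n))) : ∃ S : Finset C, u ∈ (sg' n S).range := by
  classical
  induction u using Coprod.induction_on with
  | inl c =>
    refine ⟨{c}, FreeGroup.of (Sum.inr ⟨c, Finset.mem_singleton_self c⟩), ?_⟩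
    rw [sg', FreeGroup.lift_apply_of]
    rfl
  | inr f =>
    refine ⟨∅, FreeGroup.map Sum.inl f, ?_⟩
    have h1 : (sg' n (∅ : Finset C)).comp (FreeGroup.map Sum.inl) = Coprod.inr := by
      apply FreeGroup.ext_hom
      intro i
      rw [MonoidHom.comp_apply, FreeGroup.map.of, sg', FreeGroup.lift_apply_of]
      rfl
    exact DFunLike.congr_fun h1 f
  | mul x y hx hy =>
    obtain ⟨S, hS⟩ := hx
    obtain ⟨T, hT⟩ := hy
    exact ⟨S ∪ T, mul_mem (sg'_mono _ _ Finset.subset_union_left hS)
      (sg'_mono _ _ Finset.subset_union_right hT)⟩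

theorem exists_sg'_all (v : Fin n → Coprod C (FreeGroup (Fin n))) :
    ∃ S : Finset C, ∀ j, v j ∈ (sg' n S).range := by
  classical
  choose S hS using fun j => exists_sg' (v j)
  exact ⟨Finset.univ.biUnion S, fun j => sg'_mono _ _
    (Finset.subset_biUnion_of_mem S (Finset.mem_univ j)) (hS j)⟩

theorem cr_eta [DecidableEq C] (S : Finset C) (u : FreeGroup (Fin n ⊕ S)) (i : Fin n) :
    (cr (Fin n ⊕ S) u).k (Sum.inl i) = Multiplicative.toAdd (eta C i (sg' n S u)) := by
  induction u using FreeGroup.induction_on with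
  | C1 => rw [map_one, map_one, map_one]; rfl
  | of j =>
    rw [cr_of, sg', FreeGroup.lift_apply_of]
    rcases j with k | s
    · show (Pi.single (Sum.inl k) 1 : (Fin n ⊕ S) → ℤ) (Sum.inl i) =
        Multiplicative.toAdd (eta C i (Coprod.inr (FreeGroup.of k)))
      rw [eta, Coprod.lift_apply_inr, FreeGroup.lift_apply_of]
      by_cases h : k = i
      · subst h
        rw [Pi.single_eq_same, if_pos rfl]
        rfl
      · rw [Pi.single_eq_of_ne (fun h' => h (Sum.inl.inj h').symm), if_neg h]
        rfl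
    · show (Pi.single (Sum.inr s) 1 : (Fin n ⊕ S) → ℤ) (Sum.inl i) =
        Multiplicative.toAdd (eta C i (Coprod.inl (s : C)))
      rw [eta, Coprod.lift_apply_inl]
      rfl
  | inv_of j h => rw [map_inv, map_inv, map_inv, Cr.inv_k, Pi.neg_apply, h, toAdd_inv]
  | mul x y hx hy => rw [map_mul, map_mul, map_mul, Cr.mul_k, Pi.add_apply, hx, hy, toAdd_mul]

/-- nonsingular systems over a group of class two have solutions in wreath products, with the group
on the diagonal -/
theorem solve_two' (hC : ∀ a b c : C, (a * b * a⁻¹ * b⁻¹) * c = c * (a * b * a⁻¹ * b⁻¹))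
    (v : Fin n → Coprod C (FreeGroup (Fin n)))
    (hdet : (Matrix.of (fun i j : Fin n => Multiplicative.toAdd (eta C i (v j)))).det ≠ 0) :
    ∃ (X : Type) (_ : Nonempty X) (t : Fin n → Wr X C), ∀ i,
      Coprod.lift (dg X C) (FreeGroup.lift t) (v i) = 1 := by
  classical
  obtain ⟨S, hS⟩ := exists_sg'_all v
  choose w hw using hS
  let W : Fin n ⊕ S → FreeGroup (Fin n ⊕ S) := Sum.elim w (fun s => FreeGroup.of (Sum.inr s))
  have hW : Em W = Matrix.fromBlocks
      (Matrix.of (fun i j : Fin n => Multiplicative.toAdd (eta C i (v j)))).transpose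
      (Matrix.of fun j s => (cr (Fin n ⊕ S) (w j)).k (Sum.inr s)) 0 1 := by
    apply Matrix.ext
    rintro (j | s) (i | s')
    · show (cr (Fin n ⊕ S) (w j)).k (Sum.inl i) = Multiplicative.toAdd (eta C i (v j))
      rw [cr_eta, hw]
    · rfl
    · show (cr (Fin n ⊕ S) (FreeGroup.of (Sum.inr s))).k (Sum.inl i) = 0
      rw [cr_of]
      rfl
    · show (cr (Fin n ⊕ S) (FreeGroup.of (Sum.inr s))).k (Sum.inr s') = (1 : Matrix S S ℤ) s s'
      rw [cr_of]
      by_cases h : s = s'
      · subst h
        rw [Matrix.one_apply_eq]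
        exact Pi.single_eq_same _ _
      · rw [Matrix.one_apply_ne h]
        exact Pi.single_eq_of_ne (fun h' => h (Sum.inr.inj h').symm) _
  have hWd : (Em W).det ≠ 0 := by
    rw [hW, Matrix.det_fromBlocks_zero₂₁, Matrix.det_one, mul_one, Matrix.det_transpose]
    exact hdet
  obtain ⟨X, hX, t, ht⟩ := solve_words hC W hWd (Sum.elim (fun _ => 1) (fun s => (s : C)))
  refine ⟨X, hX, fun i => t (Sum.inl i), fun j => ?_⟩
  have h1 : (Coprod.lift (dg X C) (FreeGroup.lift fun i => t (Sum.inl i))).comp (sg' n S) =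
      FreeGroup.lift t := by
    apply FreeGroup.ext_hom
    rintro (i | s)
    · rw [MonoidHom.comp_apply, sg', FreeGroup.lift_apply_of, FreeGroup.lift_apply_of]
      show Coprod.lift (dg X C) (FreeGroup.lift fun i => t (Sum.inl i))
        (Coprod.inr (FreeGroup.of i)) = _
      rw [Coprod.lift_apply_inr, FreeGroup.lift_apply_of]
    · rw [MonoidHom.comp_apply, sg', FreeGroup.lift_apply_of, FreeGroup.lift_apply_of]
      show Coprod.lift (dg X C) (FreeGroup.lift fun i => t (Sum.inl i))
        (Coprod.inl (s : C)) = _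
      rw [Coprod.lift_apply_inl]
      have h2 := ht (Sum.inr s)
      rw [show W (Sum.inr s) = FreeGroup.of (Sum.inr s) from rfl, FreeGroup.lift_apply_of] at h2
      exact h2.symm
  have h2 := DFunLike.congr_fun h1 (w j)
  rw [MonoidHom.comp_apply, hw] at h2
  rw [h2]
  have h3 := ht (Sum.inl j)
  rw [show W (Sum.inl j) = w j from rfl] at h3
  rw [h3]
  exact map_one _

end general

section map

variable {G C : Type} [Group G] [Group C]

/-- functoriality of the wreath product -/
def wm (X : Type) (j : C →* G) : Wr X C →* Wr X G where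
  toFun a := ⟨fun x => j (a.s x), a.p⟩
  map_one' := by
    apply Wr.ext
    · funext x
      exact map_one j
    · rfl
  map_mul' a b := by
    apply Wr.ext
    · funext x
      exact map_mul j _ _
    · rfl

/-- coefficients in a subgroup of class two -/
theorem solve_of_class_two {n : ℕ} (C : Subgroup G)
    (hC : ∀ a ∈ C, ∀ b ∈ C, ∀ c ∈ C, (a * b * a⁻¹ * b⁻¹) * c = c * (a * b * a⁻¹ * b⁻¹))
    (w : Fin n → Coprod G (FreeGroup (Fin n)))
    (hdet : (Matrix.of (fun i j : Fin n => Multiplicative.toAdd (eta G i (w j)))).det ≠ 0)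
    (hw : ∀ i, w i ∈ (Coprod.map C.subtype (MonoidHom.id (FreeGroup (Fin n)))).range) :
    ∃ (X : Type) (_ : Nonempty X) (t : Fin n → Wr X G), ∀ i,
      Coprod.lift (dg X G) (FreeGroup.lift t) (w i) = 1 := by
  choose v hv using hw
  obtain ⟨X, hX, t, ht⟩ := solve_two' (C := C)
    (fun a b c => Subtype.ext (hC a a.2 b b.2 c c.2)) v (by
      have h1 : (Matrix.of (fun i j : Fin n => Multiplicative.toAdd (eta G i (w j)))) =
          Matrix.of (fun i j : Fin n => Multiplicative.toAdd (eta C i (v j))) := by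
        apply Matrix.ext
        intro i j
        rw [Matrix.of_apply, Matrix.of_apply, ← hv j, eta_map]
      rwa [h1] at hdet)
  refine ⟨X, hX, fun i => wm X C.subtype (t i), fun i => ?_⟩
  have h1 : (Coprod.lift (dg X G) (FreeGroup.lift fun i => wm X C.subtype (t i))).comp
      (Coprod.map C.subtype (MonoidHom.id (FreeGroup (Fin n)))) =
      (wm X C.subtype).comp (Coprod.lift (dg X C) (FreeGroup.lift t)) := by
    apply Coprod.hom_ext
    · apply MonoidHom.ext
      intro c
      simp only [MonoidHom.comp_apply, Coprod.map_apply_inl, Coprod.lift_apply_inl]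
      rfl
    · apply FreeGroup.ext_hom
      intro k
      simp only [MonoidHom.comp_apply, Coprod.map_apply_inr, Coprod.lift_apply_inr,
        MonoidHom.id_apply, FreeGroup.lift_apply_of]
  have h2 := DFunLike.congr_fun h1 (v i)
  rw [MonoidHom.comp_apply, hv i, MonoidHom.comp_apply, ht i, map_one] at h2
  exact h2

end map

end Q9.KE
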