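import Pool.Agent.Q9.KE.Base

/-!
# The Fox matrix of a nonsingular system of words over the group ring of the lattice
-/

set_option autoImplicit false

namespace Q9.KE

open Pool.Agent.Y462.SS (Wr)
open Monoid Equiv

/-- the group ring of the lattice -/
abbrev GR (ι : Type) := AddMonoidAlgebra ℤ (ι → ℤ)

/-- monomials -/
noncomputable def mo {ι : Type} (d : ι → ℤ) : GR ι := AddMonoidAlgebra.single d 1

theorem mo_add {ι : Type} (d e : ι → ℤ) : mo (d + e) = mo d * mo e := by
  rw [mo, mo, mo, AddMonoidAlgebra.single_mul_single, mul_one]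

theorem mo_zero {ι : Type} : mo (0 : ι → ℤ) = 1 := rfl

/-- pairs of a vector over the group ring and an element of the lattice -/
@[ext] structure Cr (ι : Type) where
  a : ι → GR ι
  k : ι → ℤ

namespace Cr

variable {ι : Type}

noncomputable instance : Mul (Cr ι) := ⟨fun u v => ⟨fun i => mo v.k * u.a i + v.a i, u.k + v.k⟩⟩
noncomputable instance : One (Cr ι) := ⟨⟨fun _ => 0, 0⟩⟩
noncomputable instance : Inv (Cr ι) := ⟨fun u => ⟨fun i => -(mo (-u.k) * u.a i), -u.k⟩⟩

theorem mul_a (u v : Cr ι) (i : ι) : (u * v).a i = mo v.k * u.a i + v.a i := rfl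
theorem mul_k (u v : Cr ι) : (u * v).k = u.k + v.k := rfl
theorem one_a (i : ι) : (1 : Cr ι).a i = 0 := rfl
theorem one_k : (1 : Cr ι).k = 0 := rfl
theorem inv_a (u : Cr ι) (i : ι) : (u⁻¹).a i = -(mo (-u.k) * u.a i) := rfl
theorem inv_k (u : Cr ι) : (u⁻¹).k = -u.k := rfl

noncomputable instance : Group (Cr ι) :=
  Group.ofLeftAxioms
    (fun u v w => by
      apply Cr.ext
      · funext i
        rw [mul_a, mul_a, mul_a, mul_a, mul_k, mo_add]
        ring
      · rw [mul_k, mul_k, mul_k, mul_k, add_assoc])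
    (fun u => by
      apply Cr.ext
      · funext i
        rw [mul_a, one_a, mul_zero, zero_add]
      · rw [mul_k, one_k, zero_add])
    (fun u => by
      apply Cr.ext
      · funext i
        rw [mul_a, inv_a, one_a, mul_neg, ← mul_assoc, ← mo_add, add_neg_cancel, mo_zero, one_mul,
          neg_add_cancel]
      · rw [mul_k, inv_k, one_k, neg_add_cancel])

end Cr

variable {ι : Type} [DecidableEq ι]

/-- the Fox derivatives in the group ring of the lattice, together with the exponent sums -/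
noncomputable def cr (ι : Type) [DecidableEq ι] : FreeGroup ι →* Cr ι :=
  FreeGroup.lift (fun i => ⟨Pi.single i 1, Pi.single i 1⟩)

theorem cr_of (i : ι) : cr ι (FreeGroup.of i) = ⟨Pi.single i 1, Pi.single i 1⟩ := by
  rw [cr, FreeGroup.lift_apply_of]

/-- the fundamental formula -/
theorem fox [Fintype ι] (u : FreeGroup ι) :
    ∑ i, (cr ι u).a i * (mo (Pi.single i 1) - 1) = mo (cr ι u).k - 1 := by
  have hmul : ∀ x y : Cr ι, (∑ i, x.a i * (mo (Pi.single i 1) - 1) = mo x.k - 1) →
      (∑ i, y.a i * (mo (Pi.single i 1) - 1) = mo y.k - 1) →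
      ∑ i, (x * y).a i * (mo (Pi.single i 1) - 1) = mo (x * y).k - 1 := by
    intro x y hx hy
    have h1 : ∑ i, (x * y).a i * (mo (Pi.single i 1) - 1) =
        mo y.k * ∑ i, x.a i * (mo (Pi.single i 1) - 1) +
          ∑ i, y.a i * (mo (Pi.single i 1) - 1) := by
      rw [Finset.mul_sum, ← Finset.sum_add_distrib]
      apply Finset.sum_congr rfl
      intro i _
      rw [Cr.mul_a]
      ring
    rw [h1, hx, hy, Cr.mul_k, mo_add]
    ring
  induction u using FreeGroup.induction_on with
  | C1 =>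
    rw [map_one, Cr.one_k, mo_zero, sub_self]
    apply Finset.sum_eq_zero
    intro i _
    rw [Cr.one_a, zero_mul]
  | of i =>
    rw [cr_of]
    simp [Pi.single_apply]
  | inv_of i h =>
    rw [map_inv]
    set x := cr ι (FreeGroup.of i) with hx
    have h1 : ∑ i, (x⁻¹).a i * (mo (Pi.single i 1) - 1) =
        -(mo (-x.k)) * ∑ i, x.a i * (mo (Pi.single i 1) - 1) := by
      rw [Finset.mul_sum]
      apply Finset.sum_congr rfl
      intro i _
      rw [Cr.inv_a]
      ring
    rw [h1, h, Cr.inv_k, mul_sub, neg_mul, ← mo_add, neg_add_cancel, mo_zero]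
    ring
  | mul x y hx hy =>
    rw [map_mul]
    exact hmul _ _ hx hy

/-- augmentation -/
noncomputable def au (ι : Type) : GR ι →ₐ[ℤ] ℤ :=
  AddMonoidAlgebra.lift ℤ ℤ (ι → ℤ) (1 : Multiplicative (ι → ℤ) →* ℤ)

omit [DecidableEq ι] in
theorem au_mo (d : ι → ℤ) : au ι (mo d) = 1 := by
  simp [au, mo]

theorem au_cr (u : FreeGroup ι) (i : ι) : au ι ((cr ι u).a i) = (cr ι u).k i := by
  induction u using FreeGroup.induction_on with
  | C1 => rw [map_one, Cr.one_a, Cr.one_k, map_zero, Pi.zero_apply]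
  | of j =>
    rw [cr_of]
    by_cases h : i = j
    · subst h
      simp
    · simp [h]
  | inv_of j h =>
    rw [map_inv, Cr.inv_a, Cr.inv_k, map_neg, map_mul, au_mo, one_mul, h, Pi.neg_apply]
  | mul x y hx hy =>
    rw [map_mul, Cr.mul_a, Cr.mul_k, map_add, map_mul, au_mo, one_mul, hx, hy, Pi.add_apply]

/-- the shifts of the integral functions on the lattice -/
def shf (ι : Type) : Multiplicative (ι → ℤ) →* Module.End ℤ ((ι → ℤ) → ℤ) where
  toFun d := LinearMap.funLeft ℤ ℤ (fun x => x + Multiplicative.toAdd d)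
  map_one' := by
    ext f x
    simp [LinearMap.funLeft]
  map_mul' d e := by
    apply LinearMap.ext
    intro f
    funext x
    show f (x + (Multiplicative.toAdd d + Multiplicative.toAdd e)) = f (x + _ + _)
    rw [add_comm (Multiplicative.toAdd d), add_assoc]
    congr 2
    exact add_comm _ _

/-- the action of the group ring on the integral functions on the lattice -/
noncomputable def ac (ι : Type) : GR ι →ₐ[ℤ] Module.End ℤ ((ι → ℤ) → ℤ) :=
  AddMonoidAlgebra.lift ℤ _ (ι → ℤ) (shf ι)

omit [DecidableEq ι] in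
theorem ac_mo (d : ι → ℤ) (f : (ι → ℤ) → ℤ) (x : ι → ℤ) : ac ι (mo d) f x = f (x + d) := by
  have h1 : ac ι (mo d) = shf ι (Multiplicative.ofAdd d) := by
    simp [ac, mo]
  rw [h1]
  rfl

omit [DecidableEq ι] in
theorem ac_mo_mul (d : ι → ℤ) (a : GR ι) (f : (ι → ℤ) → ℤ) (x : ι → ℤ) :
    ac ι (mo d * a) f x = ac ι a f (x + d) := by
  rw [map_mul, Module.End.mul_apply, ac_mo]

end Q9.KE
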