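import Pool.Agent.Q9.KE.Cr

/-!
# Integral functions attached to a nonsingular system of words
-/

set_option autoImplicit false

namespace Q9.KE

open Pool.Agent.Y462.SS (Wr)
open Monoid Equiv

variable {ι : Type} [DecidableEq ι] [Fintype ι]

/-- the matrix of the exponent sums -/
noncomputable def Em (w : ι → FreeGroup ι) : Matrix ι ι ℤ := Matrix.of fun j i => (cr ι (w j)).k i

/-- the Fox matrix -/
noncomputable def Dm (w : ι → FreeGroup ι) : Matrix ι ι (GR ι) :=
  Matrix.of fun j i => (cr ι (w j)).a i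

theorem au_det (w : ι → FreeGroup ι) : au ι (Dm w).det = (Em w).det := by
  have h1 := RingHom.map_det (au ι : GR ι →+* ℤ) (Dm w)
  have h2 : (au ι : GR ι →+* ℤ).mapMatrix (Dm w) = Em w := by
    ext j i
    exact au_cr (w j) i
  rw [h2] at h1
  exact h1

theorem fox_det (w : ι → FreeGroup ι) (i : ι) :
    (mo (Pi.single i 1) - 1) * (Dm w).det =
      ∑ l, (Dm w).adjugate i l * (mo (cr ι (w l)).k - 1) := by
  have h1 : (Dm w).mulVec (fun i => mo (Pi.single i 1) - 1) = fun l => mo (cr ι (w l)).k - 1 := by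
    funext l
    exact fox (w l)
  have h2 : ((Dm w).adjugate * Dm w).mulVec (fun i => mo (Pi.single i 1) - 1) =
      (Dm w).adjugate.mulVec (fun l => mo (cr ι (w l)).k - 1) := by
    rw [← Matrix.mulVec_mulVec, h1]
  rw [Matrix.adjugate_mul] at h2
  have h3 := congrFun h2 i
  rw [Matrix.smul_mulVec, Matrix.one_mulVec, Pi.smul_apply, smul_eq_mul] at h3
  rw [mul_comm, h3]
  rfl

/-- the lattice of the relations -/
noncomputable def kap (w : ι → FreeGroup ι) : (ι → ℤ) →ₗ[ℤ] (ι → ℤ) := Matrix.toLin' (Em w).transpose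

theorem kap_single (w : ι → FreeGroup ι) (j : ι) : kap w (Pi.single j 1) = (cr ι (w j)).k := by
  rw [kap, Matrix.toLin'_apply, Matrix.mulVec_single_one]
  rfl

theorem kap_inj (w : ι → FreeGroup ι) (hw : (Em w).det ≠ 0) : Function.Injective (kap w) := by
  rw [injective_iff_map_eq_zero]
  intro z hz
  rw [kap, Matrix.toLin'_apply] at hz
  exact Matrix.eq_zero_of_mulVec_eq_zero (by rwa [Matrix.det_transpose]) hz

theorem card_quot (w : ι → FreeGroup ι) (hw : (Em w).det ≠ 0) :
    Nat.card ((ι → ℤ) ⧸ LinearMap.range (kap w)) = (Em w).det.natAbs := by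
  have h1 := Submodule.natAbs_det_equiv (LinearMap.range (kap w))
    (LinearEquiv.ofInjective (kap w) (kap_inj w hw))
  rw [← h1]
  have h2 : (LinearMap.range (kap w)).subtype ∘ₗ
      AddMonoidHom.toIntLinearMap (((LinearEquiv.ofInjective (kap w) (kap_inj w hw)) :
        (ι → ℤ) →+ (LinearMap.range (kap w)))) = kap w := by
    ext x
    rfl
  rw [h2, kap, LinearMap.det_toLin', Matrix.det_transpose]

open Classical in
/-- the indicator function of the lattice of the relations -/
noncomputable def z0 (w : ι → FreeGroup ι) (y : ι → ℤ) : ℤ :=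
  if y ∈ LinearMap.range (kap w) then 1 else 0

open Classical in
/-- the coordinates on the lattice of the relations, extended by `0` -/
noncomputable def zj (w : ι → FreeGroup ι) (j : ι) (y : ι → ℤ) : ℤ :=
  if h : y ∈ LinearMap.range (kap w) then h.choose j else 0

theorem z0_add (w : ι → FreeGroup ι) (y : ι → ℤ) (l : ι) :
    z0 w (y + (cr ι (w l)).k) = z0 w y := by
  have h1 : (y + (cr ι (w l)).k ∈ LinearMap.range (kap w)) ↔ y ∈ LinearMap.range (kap w) :=
    Submodule.add_mem_iff_left _ ⟨_, kap_single w l⟩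
  by_cases h : y ∈ LinearMap.range (kap w)
  · rw [z0, z0, if_pos h, if_pos (h1.2 h)]
  · rw [z0, z0, if_neg h, if_neg (fun h2 => h (h1.1 h2))]

theorem zj_add (w : ι → FreeGroup ι) (hw : (Em w).det ≠ 0) (y : ι → ℤ) (j l : ι) :
    zj w j (y + (cr ι (w l)).k) = zj w j y + (if j = l then z0 w y else 0) := by
  classical
  have h1 : (y + (cr ι (w l)).k ∈ LinearMap.range (kap w)) ↔ y ∈ LinearMap.range (kap w) :=
    Submodule.add_mem_iff_left _ ⟨_, kap_single w l⟩
  by_cases h : y ∈ LinearMap.range (kap w)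
  · have h' := h1.2 h
    have h2 : h'.choose = h.choose + Pi.single l 1 := by
      apply kap_inj w hw
      rw [h'.choose_spec, map_add, h.choose_spec, kap_single]
    rw [zj, zj, z0, dif_pos h', dif_pos h, if_pos h, h2, Pi.add_apply]
    congr 1
    by_cases hjl : j = l
    · subst hjl
      simp
    · simp [hjl]
  · have h' : ¬ (y + (cr ι (w l)).k ∈ LinearMap.range (kap w)) := fun h3 => h (h1.1 h3)
    rw [zj, zj, z0, dif_neg h', dif_neg h, if_neg h, ite_self, add_zero]

/-- the sum over the cosets -/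
theorem sum_quot (w : ι → FreeGroup ι) [Fintype ((ι → ℤ) ⧸ LinearMap.range (kap w))] (a : GR ι) :
    ∑ ξ : (ι → ℤ) ⧸ LinearMap.range (kap w), ac ι a (z0 w) (Quotient.out ξ) = au ι a := by
  induction a using AddMonoidAlgebra.induction_on with
  | of d =>
    have h1 : AddMonoidAlgebra.of ℤ (ι → ℤ) (Multiplicative.ofAdd d) = mo d := rfl
    rw [h1, au_mo]
    simp only [ac_mo]
    rw [Finset.sum_eq_single (Submodule.Quotient.mk (-d))]
    · rw [z0, if_pos]
      rw [← Submodule.Quotient.mk_eq_zero, Submodule.Quotient.mk_add]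
      have h2 : (Submodule.Quotient.mk (Quotient.out (Submodule.Quotient.mk
          (p := LinearMap.range (kap w)) (-d))) :
            (ι → ℤ) ⧸ LinearMap.range (kap w)) = Submodule.Quotient.mk (-d) :=
        Quotient.out_eq _
      rw [h2, ← Submodule.Quotient.mk_add, neg_add_cancel]
      rfl
    · intro ξ _ hne
      rw [z0, if_neg]
      intro h3
      apply hne
      rw [← Submodule.Quotient.mk_eq_zero, Submodule.Quotient.mk_add] at h3
      have h2 : (Submodule.Quotient.mk (Quotient.out ξ) :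
            (ι → ℤ) ⧸ LinearMap.range (kap w)) = ξ := Quotient.out_eq _
      rw [h2] at h3
      rw [Submodule.Quotient.mk_neg]
      exact eq_neg_of_add_eq_zero_left h3
    · intro h
      exact absurd (Finset.mem_univ _) h
  | add x y hx hy =>
    rw [map_add, map_add, ← hx, ← hy, ← Finset.sum_add_distrib]
    rfl
  | smul r x hx =>
    rw [map_smul, map_smul, ← hx, Finset.smul_sum]
    rfl

/-- functions invariant under the unit vectors are constant -/
theorem const_of {M : Type} (c : (ι → ℤ) → M) (h : ∀ i x, c (x + Pi.single i 1) = c x) (x : ι → ℤ) :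
    c x = c 0 := by
  let P : AddSubgroup (ι → ℤ) :=
    { carrier := {d | ∀ x, c (x + d) = c x}
      add_mem' := by
        intro a b ha hb x
        rw [← add_assoc, hb, ha]
      zero_mem' := by
        intro x
        rw [add_zero]
      neg_mem' := by
        intro a ha x
        have h1 := ha (x + -a)
        rw [neg_add_cancel_right] at h1
        exact h1.symm }
  have h1 : x ∈ P := by
    have h2 : x = ∑ i, x i • (Pi.single i 1 : ι → ℤ) := by
      funext j
      simp [Finset.sum_apply, Pi.single_apply]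
    rw [h2]
    exact P.sum_mem fun i _ => P.zsmul_mem (fun x => h i x) _
  have h3 := h1 0
  rw [zero_add] at h3
  exact h3

/-- the determinant acts on the indicator function by a sign -/
theorem exists_sign (w : ι → FreeGroup ι) (hw : (Em w).det ≠ 0) :
    ∃ ε : ℤ, ε * ε = 1 ∧ ∀ x, ac ι (Dm w).det (z0 w) x = ε := by
  have h1 : ∀ i x, ac ι (Dm w).det (z0 w) (x + Pi.single i 1) = ac ι (Dm w).det (z0 w) x := by
    intro i x
    have h2 : ac ι ((mo (Pi.single i 1) - 1) * (Dm w).det) (z0 w) x = 0 := by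
      rw [fox_det, map_sum, LinearMap.sum_apply, Finset.sum_apply]
      apply Finset.sum_eq_zero
      intro l _
      rw [map_mul, Module.End.mul_apply]
      have h3 : ac ι (mo (cr ι (w l)).k - 1) (z0 w) = 0 := by
        funext y
        rw [map_sub, map_one, LinearMap.sub_apply, Module.End.one_apply, Pi.sub_apply, ac_mo,
          z0_add, sub_self, Pi.zero_apply]
      rw [h3, map_zero, Pi.zero_apply]
    rw [sub_mul, one_mul, map_sub, LinearMap.sub_apply, Pi.sub_apply, ac_mo_mul] at h2
    exact sub_eq_zero.1 h2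
  have hcard := card_quot w hw
  have hfin : Finite ((ι → ℤ) ⧸ LinearMap.range (kap w)) := by
    apply Nat.finite_of_card_ne_zero
    rw [hcard]
    exact Int.natAbs_ne_zero.2 hw
  have := Fintype.ofFinite ((ι → ℤ) ⧸ LinearMap.range (kap w))
  have h2 := sum_quot w (Dm w).det
  have h6 : ∑ ξ : (ι → ℤ) ⧸ LinearMap.range (kap w), ac ι (Dm w).det (z0 w) (Quotient.out ξ) =
      ∑ ξ : (ι → ℤ) ⧸ LinearMap.range (kap w), ac ι (Dm w).det (z0 w) 0 :=
    Finset.sum_congr rfl fun ξ _ => const_of (ac ι (Dm w).det (z0 w)) h1 (Quotient.out ξ)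
  rw [h6, Finset.sum_const, Finset.card_univ, ← Nat.card_eq_fintype_card, hcard, au_det, nsmul_eq_mul] at h2
  refine ⟨ac ι (Dm w).det (z0 w) 0, ?_, fun x => const_of _ h1 x⟩
  have h3 := congrArg Int.natAbs h2
  rw [Int.natAbs_mul, Int.natAbs_natCast] at h3
  have h4 : (ac ι (Dm w).det (z0 w) 0).natAbs = 1 :=
    Nat.eq_of_mul_eq_mul_left (Nat.pos_of_ne_zero (Int.natAbs_ne_zero.2 hw)) (by rw [h3, mul_one])
  rcases Int.natAbs_eq_iff.1 h4 with h5 | h5 <;> rw [h5] <;> rfl

end Q9.KE
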