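import Pool.Agent.Q9.KE.Base

/-!
# Systems of weight two
-/

set_option autoImplicit false

namespace Q9.KE

open Pool.Agent.Y462.SS (Wr)
open Monoid Equiv

section graph

variable {K ι κ : Type} [Nonempty K] [DecidableEq ι] [DecidableEq κ]

/-- the rational value of a sign -/
def sg (u : ℤˣ) : ℚ := ((u : ℤ) : ℚ)

omit [Nonempty K] in
theorem sg_mul (u v : ℤˣ) : sg (u * v) = sg u * sg v := by
  simp [sg]

theorem sg_one : sg 1 = 1 := by simp [sg]

theorem sg_sq (u : ℤˣ) : sg u * sg u = 1 := by
  rcases Int.units_eq_one_or u with rfl | rfl <;> simp [sg]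

theorem sg_inv (u : ℤˣ) : sg u⁻¹ = sg u := by
  rcases Int.units_eq_one_or u with rfl | rfl <;> simp [sg]

/-- systems of equations `t (p e) = λ e (t (q e))`, where the `λ e` come from a group with a sign
such that the elements of negative sign have fixed points -/
theorem graph_solve (L : Subgroup (Perm K × ℤˣ))
    (hfix : ∀ x ∈ L, x.2 = -1 → ∃ k, x.1 k = k) : ∀ (n : ℕ) (S : Finset κ) (_ : S.card = n)
    (p q : κ → ι) (l : κ → Perm K × ℤˣ) (_ : ∀ e ∈ S, l e ∈ L)
    (_ : ∀ b : κ → ℚ, ∃ T : ι → ℚ, ∀ e ∈ S, T (p e) - sg (l e).2 * T (q e) = b e),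
    ∃ t : ι → K, ∀ e ∈ S, t (p e) = (l e).1 (t (q e)) := by
  intro n
  induction n with
  | zero =>
    intro S hS p q l _ _
    rw [Finset.card_eq_zero] at hS
    subst hS
    exact ⟨fun _ => Classical.arbitrary K, fun e he => absurd he (Finset.notMem_empty e)⟩
  | succ n ih =>
    intro S hS p q l hl hb
    by_cases hne : ∃ e₀ ∈ S, p e₀ ≠ q e₀
    · obtain ⟨e₀, he₀, hpq⟩ := hne
      have hcard : (S.erase e₀).card = n := by
        rw [Finset.card_erase_of_mem he₀, hS]
        rfl
      have hl₀ := hl e₀ he₀
      obtain ⟨t, ht⟩ := ih (S.erase e₀) hcard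
        (fun e => if p e = p e₀ then q e₀ else p e)
        (fun e => if q e = p e₀ then q e₀ else q e)
        (fun e => (if p e = p e₀ then (l e₀)⁻¹ else 1) * l e * (if q e = p e₀ then l e₀ else 1))
        (by
          intro e he
          have h1 := hl e (Finset.mem_of_mem_erase he)
          apply L.mul_mem
          · apply L.mul_mem _ h1
            split_ifs
            · exact L.inv_mem hl₀
            · exact L.one_mem
          · split_ifs
            · exact hl₀
            · exact L.one_mem)
        (by
          intro b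
          obtain ⟨T, hT⟩ := hb (fun e => if e = e₀ then 0 else
            (if p e = p e₀ then sg (l e₀).2 else 1) * b e)
          have hT0 : T (p e₀) = sg (l e₀).2 * T (q e₀) := by
            have h1 := hT e₀ he₀
            rw [if_pos rfl] at h1
            exact sub_eq_zero.1 h1
          refine ⟨T, fun e he => ?_⟩
          have h2 := hT e (Finset.mem_of_mem_erase he)
          rw [if_neg (Finset.ne_of_mem_erase he)] at h2
          have h3 := sg_sq (l e₀).2
          rw [Prod.snd_mul, Prod.snd_mul, sg_mul, sg_mul]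
          by_cases hp : p e = p e₀
          · rw [if_pos hp, if_pos hp] at *
            rw [Prod.snd_inv, sg_inv]
            rw [hp, hT0] at h2
            by_cases hq : q e = p e₀
            · rw [if_pos hq, if_pos hq]
              rw [hq, hT0] at h2
              linear_combination (sg (l e₀).2) * h2 + (b e - T (q e₀)) * h3
            · rw [if_neg hq, if_neg hq, Prod.snd_one, sg_one]
              linear_combination (sg (l e₀).2) * h2 + (b e - T (q e₀)) * h3
          · rw [if_neg hp, if_neg hp] at *
            rw [Prod.snd_one, sg_one]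
            by_cases hq : q e = p e₀
            · rw [if_pos hq, if_pos hq]
              rw [hq, hT0] at h2
              linear_combination h2
            · rw [if_neg hq, if_neg hq, Prod.snd_one, sg_one]
              linear_combination h2)
      refine ⟨fun i => if i = p e₀ then (l e₀).1 (t (q e₀)) else t i, fun e he => ?_⟩
      dsimp only
      by_cases hee : e = e₀
      · subst hee
        rw [if_pos rfl, if_neg (Ne.symm hpq)]
      · have h1 := ht e (Finset.mem_erase.2 ⟨hee, he⟩)
        rw [Prod.fst_mul, Prod.fst_mul, Perm.mul_apply, Perm.mul_apply] at h1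
        by_cases hp : p e = p e₀
        · rw [if_pos hp, if_pos hp, Prod.fst_inv, Perm.eq_inv_iff_eq] at h1
          rw [if_pos hp]
          by_cases hq : q e = p e₀
          · rw [if_pos hq, if_pos hq] at h1
            rw [if_pos hq]
            exact h1
          · rw [if_neg hq, if_neg hq] at h1
            rw [if_neg hq]
            exact h1
        · rw [if_neg hp, if_neg hp, Prod.fst_one, Perm.one_apply] at h1
          rw [if_neg hp, h1]
          by_cases hq : q e = p e₀
          · rw [if_pos hq, if_pos hq, if_pos hq]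
          · rw [if_neg hq, if_neg hq, if_neg hq]
            rfl
    · push Not at hne
      have hsgn : ∀ e ∈ S, (l e).2 = -1 := by
        intro e he
        rcases Int.units_eq_one_or (l e).2 with h | h
        · exfalso
          obtain ⟨T, hT⟩ := hb (fun _ => 1)
          have h1 := hT e he
          rw [h, sg_one, ← hne e he] at h1
          linarith
        · exact h
      have hinj : ∀ e ∈ S, ∀ e' ∈ S, p e = p e' → e = e' := by
        intro e he e' he' hpp
        by_contra hcon
        obtain ⟨T, hT⟩ := hb (fun f => if f = e then 1 else 0)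
        have h1 := hT e he
        have h2 := hT e' he'
        rw [if_pos rfl, hsgn e he, ← hne e he] at h1
        rw [if_neg (Ne.symm hcon), hsgn e' he', ← hne e' he', ← hpp] at h2
        rw [h1] at h2
        exact one_ne_zero h2
      have hk : ∀ e : κ, ∃ k : K, e ∈ S → (l e).1 k = k := by
        intro e
        by_cases he : e ∈ S
        · obtain ⟨k, hk⟩ := hfix (l e) (hl e he) (hsgn e he)
          exact ⟨k, fun _ => hk⟩
        · exact ⟨Classical.arbitrary K, fun h => absurd h he⟩
      choose k hk using hk
      classical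
      refine ⟨fun i => if h : ∃ e ∈ S, p e = i then k h.choose else Classical.arbitrary K,
        fun e he => ?_⟩
      have h1 : ∃ e' ∈ S, p e' = p e := ⟨e, he, rfl⟩
      have h2 : h1.choose = e := hinj _ h1.choose_spec.1 _ he h1.choose_spec.2
      dsimp only
      rw [← hne e he, dif_pos h1, h2, hk e he]

end graph

section wreath

variable {G : Type} [Group G]

/-- the maps `k ↦ x k^ε y` -/
def lin (G : Type) [Group G] : Subgroup (Perm (Wr Bool G) × ℤˣ) where
  carrier := {z | ∃ x y : G, ∀ k : Wr Bool G, z.1 k = dg Bool G x * k ^ (z.2 : ℤ) * dg Bool G y}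
  mul_mem' := by
    rintro ⟨π, u⟩ ⟨π', u'⟩ ⟨x, y, h⟩ ⟨x', y', h'⟩
    rcases Int.units_eq_one_or u with rfl | rfl
    · refine ⟨x * x', y' * y, fun k => ?_⟩
      have h1 := h' k
      have h2 := h (π' k)
      simp only [Units.val_one, zpow_one] at h2
      dsimp only at h1
      show π (π' k) = _
      rw [h2, h1, map_mul, map_mul]
      show _ = _ * k ^ (((1 * u' : ℤˣ)) : ℤ) * _
      rw [one_mul]
      group
    · refine ⟨x * y'⁻¹, x'⁻¹ * y, fun k => ?_⟩
      have h1 := h' k
      have h2 := h (π' k)
      simp only [Units.val_neg, Units.val_one, zpow_neg, zpow_one] at h2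
      dsimp only at h1
      show π (π' k) = _
      rw [h2, h1, map_mul, map_mul, map_inv, map_inv]
      show _ = _ * k ^ (((-1 * u' : ℤˣ)) : ℤ) * _
      have h3 : (((-1 * u' : ℤˣ)) : ℤ) = -(u' : ℤ) := by
        rw [Units.val_mul, Units.val_neg, Units.val_one, neg_one_mul]
      rw [h3, zpow_neg]
      group
  one_mem' := ⟨1, 1, fun k => by
    show k = _ * k ^ (((1 : ℤˣ)) : ℤ) * _
    rw [Units.val_one, zpow_one, map_one, one_mul, mul_one]⟩
  inv_mem' := by
    rintro ⟨π, u⟩ ⟨x, y, h⟩
    rcases Int.units_eq_one_or u with rfl | rfl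
    · refine ⟨x⁻¹, y⁻¹, fun k => ?_⟩
      have h2 := h (π⁻¹ k)
      simp only [Units.val_one, zpow_one] at h2
      have h4 : π (π⁻¹ k) = k := Equiv.apply_symm_apply π k
      rw [h4] at h2
      show π⁻¹ k = _ * k ^ (((1⁻¹ : ℤˣ)) : ℤ) * _
      rw [inv_one, Units.val_one, zpow_one, map_inv, map_inv]
      conv_rhs => rw [h2]
      group
    · refine ⟨y, x, fun k => ?_⟩
      have h2 := h (π⁻¹ k)
      simp only [Units.val_neg, Units.val_one, zpow_neg, zpow_one] at h2
      have h4 : π (π⁻¹ k) = k := Equiv.apply_symm_apply π k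
      rw [h4] at h2
      show π⁻¹ k = _ * k ^ ((((-1 : ℤˣ))⁻¹ : ℤˣ) : ℤ) * _
      have h3 : ((((-1 : ℤˣ))⁻¹ : ℤˣ) : ℤ) = -1 := by decide
      rw [h3, zpow_neg, zpow_one]
      conv_rhs => rw [h2]
      group

theorem lin_fix (z : Perm (Wr Bool G) × ℤˣ) (hz : z ∈ lin G) (h : z.2 = -1) :
    ∃ k, z.1 k = k := by
  obtain ⟨x, y, hxy⟩ := hz
  refine ⟨⟨fun b => if b then x else y, Equiv.boolNot⟩, ?_⟩
  rw [hxy, h, Units.val_neg, Units.val_one, zpow_neg, zpow_one]
  apply Wr.ext
  · funext b
    show x * ((if (Equiv.boolNot⁻¹ : Perm Bool) b then x else y : G))⁻¹ * y = if b then x else y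
    cases b
    · show x * x⁻¹ * y = y
      rw [mul_inv_cancel, one_mul]
    · show x * y⁻¹ * y = x
      rw [inv_mul_cancel_right]
  · show 1 * (Equiv.boolNot)⁻¹ * 1 = Equiv.boolNot
    ext b
    cases b <;> rfl

end wreath

end Q9.KE
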