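import Pool.Agent.Q9.KE.Ab
import Pool.Agent.Q9.KE.Two

/-!
# Nonsingular systems
-/

set_option autoImplicit false

namespace Q9.KE

open Pool.Agent.Y462.SS (Wr)
open Monoid Equiv

variable {G : Type} [Group G] {n : ℕ}

/-- the matrix of the exponent sums -/
theorem det_of (w : Fin n → Coprod G (FreeGroup (Fin n)))
    (hdet : (Matrix.of (fun i j : Fin n => Multiplicative.toAdd
        (Monoid.Coprod.lift (1 : G →* Multiplicative ℤ)
          (FreeGroup.lift (fun k : Fin n =>
            if k = i then Multiplicative.ofAdd (1 : ℤ) else 1)) (w j)))).det ≠ 0) :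
    (Matrix.of (fun i j : Fin n => Multiplicative.toAdd (eta G i (w j)))).det ≠ 0 := hdet

/-- the rows are independent -/
theorem rows_of_det (w : Fin n → Coprod G (FreeGroup (Fin n)))
    (hdet : (Matrix.of (fun i j : Fin n => Multiplicative.toAdd (eta G i (w j)))).det ≠ 0)
    (z : Fin n → ℤ) (hz : ∀ j, ∑ i, z i * Multiplicative.toAdd (eta G j (w i)) = 0) : z = 0 := by
  apply Matrix.eq_zero_of_mulVec_eq_zero hdet
  funext j
  show ∑ i, (Matrix.of (fun i j : Fin n => Multiplicative.toAdd (eta G i (w j)))) j i * z i = 0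
  rw [← hz j]
  apply Finset.sum_congr rfl
  intro i _
  rw [Matrix.of_apply, mul_comm]

/-- the rational system is solvable -/
theorem surj_of_det (w : Fin n → Coprod G (FreeGroup (Fin n)))
    (hdet : (Matrix.of (fun i j : Fin n => Multiplicative.toAdd (eta G i (w j)))).det ≠ 0)
    (b : Fin n → ℚ) : ∃ T : Fin n → ℚ, ∀ e, ∑ i, ((Multiplicative.toAdd (eta G i (w e)) : ℤ) : ℚ) * T i =
      b e := by
  have h1 : IsUnit ((Matrix.of (fun i j : Fin n => Multiplicative.toAdd
      (eta G i (w j)))).transpose.map (Int.cast : ℤ → ℚ)) := by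
    rw [Matrix.isUnit_iff_isUnit_det, isUnit_iff_ne_zero]
    have h2 := Int.cast_det (R := ℚ) (Matrix.of (fun i j : Fin n => Multiplicative.toAdd
      (eta G i (w j)))).transpose
    rw [Matrix.det_transpose] at h2
    intro h3
    apply hdet
    have h4 : ((Matrix.of (fun i j : Fin n => Multiplicative.toAdd
      (eta G i (w j)))).det : ℚ) = 0 := by
      rw [h2]
      exact h3
    exact_mod_cast h4
  obtain ⟨T, hT⟩ := (Matrix.mulVec_surjective_iff_isUnit.2 h1) b
  refine ⟨T, fun e => ?_⟩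
  rw [← hT]
  rfl

theorem eta_map {C : Type} [Group C] (j : C →* G) (v : Coprod C (FreeGroup (Fin n))) (i : Fin n) :
    eta G i (Coprod.map j (MonoidHom.id (FreeGroup (Fin n))) v) = eta C i v := by
  have h1 : (eta G i).comp (Coprod.map j (MonoidHom.id (FreeGroup (Fin n)))) = eta C i := by
    apply Coprod.hom_ext
    · ext1 c
      simp [eta]
    · apply FreeGroup.ext_hom
      intro k
      simp [eta]
  exact DFunLike.congr_fun h1 v

/-- a system solvable in the wreath product satisfies the conclusion of `Q1` -/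
theorem main_of_solution (w : Fin n → Coprod G (FreeGroup (Fin n)))
    (h : ∃ (X : Type) (_ : Nonempty X) (t : Fin n → Wr X G), ∀ i,
      Coprod.lift (dg X G) (FreeGroup.lift t) (w i) = 1) (r : ℕ) (g : Fin r → G)
    (hh : ∃ h : Fin r → (Monoid.Coprod G (FreeGroup (Fin n)) ⧸
              Subgroup.normalClosure (Set.range w)),
          (List.ofFn (fun i => h i *
              QuotientGroup.mk' (Subgroup.normalClosure (Set.range w))
                (Monoid.Coprod.inl (g i)) * (h i)⁻¹)).prod = 1) :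
    ∃ x : Fin r → G, (List.ofFn (fun i => x i * g i * (x i)⁻¹)).prod = 1 := by
  obtain ⟨X, hX, t, ht⟩ := h
  obtain ⟨Θ, hΘ⟩ := exists_theta w t ht
  exact reflect _ Θ hΘ r g hh

/-- commuting coefficients -/
theorem solve_of_comm (C : Subgroup G) (hC : ∀ a ∈ C, ∀ b ∈ C, a * b = b * a)
    (w : Fin n → Coprod G (FreeGroup (Fin n)))
    (hdet : (Matrix.of (fun i j : Fin n => Multiplicative.toAdd (eta G i (w j)))).det ≠ 0)
    (hw : ∀ i, w i ∈ (Coprod.map C.subtype (MonoidHom.id (FreeGroup (Fin n)))).range) :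
    ∃ (X : Type) (_ : Nonempty X) (t : Fin n → Wr X G), ∀ i,
      Coprod.lift (dg X G) (FreeGroup.lift t) (w i) = 1 := by
  choose v hv using hw
  let _ : CommGroup C := { (inferInstance : Group C) with
    mul_comm := fun a b => Subtype.ext (hC a a.2 b b.2) }
  obtain ⟨X, hX, t, ht⟩ := solve_comm (C := C) C.subtype v (by
    intro z hz
    apply rows_of_det w hdet
    intro j
    rw [← hz j]
    apply Finset.sum_congr rfl
    intro i _
    rw [← hv i, eta_map])
  refine ⟨X, hX, t, fun i => ?_⟩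
  rw [← hv i]
  exact ht i

/-- systems of weight two -/
theorem solve_of_two (p q : Fin n → Fin n) (ε δ : Fin n → ℤˣ) (a b : Fin n → G)
    (w : Fin n → Coprod G (FreeGroup (Fin n)))
    (hdet : (Matrix.of (fun i j : Fin n => Multiplicative.toAdd (eta G i (w j)))).det ≠ 0)
    (hw : ∀ i, w i = Coprod.inr (FreeGroup.of (p i) ^ (ε i : ℤ)) * Coprod.inl (a i) *
      (Coprod.inr (FreeGroup.of (q i) ^ (δ i : ℤ)) * Coprod.inl (b i))) :
    ∃ (X : Type) (_ : Nonempty X) (t : Fin n → Wr X G), ∀ i,
      Coprod.lift (dg X G) (FreeGroup.lift t) (w i) = 1 := by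
  have hpair : ∀ (x y : G) (u : ℤˣ), ∃ z ∈ lin G, z.2 = u ∧
      ∀ k, z.1 k = dg Bool G x * k ^ (u : ℤ) * dg Bool G y := by
    intro x y u
    rcases Int.units_eq_one_or u with rfl | rfl
    · refine ⟨⟨(Equiv.mulLeft (dg Bool G x)).trans (Equiv.mulRight (dg Bool G y)), 1⟩,
        ⟨x, y, fun k => ?_⟩, rfl, fun k => ?_⟩
      · show dg Bool G x * k * dg Bool G y = _
        simp
      · show dg Bool G x * k * dg Bool G y = _
        simp
    · refine ⟨⟨((Equiv.inv _).trans (Equiv.mulLeft (dg Bool G x))).trans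
        (Equiv.mulRight (dg Bool G y)), -1⟩, ⟨x, y, fun k => ?_⟩, rfl, fun k => ?_⟩
      · show dg Bool G x * k⁻¹ * dg Bool G y = _
        simp
      · show dg Bool G x * k⁻¹ * dg Bool G y = _
        simp
  -- the equation `t_p = (b⁻¹ t_q ^ (-δ) a⁻¹) ^ ε`
  have hex : ∀ i, ∃ z ∈ lin G, z.2 = -(ε i * δ i) ∧ ∀ s k : Wr Bool G, s = z.1 k →
      s ^ (ε i : ℤ) * dg Bool G (a i) * (k ^ (δ i : ℤ) * dg Bool G (b i)) = 1 := by
    intro i
    rcases Int.units_eq_one_or (ε i) with h | h
    · obtain ⟨z, hz, hz2, hz3⟩ := hpair (b i)⁻¹ (a i)⁻¹ (-(ε i * δ i))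
      refine ⟨z, hz, hz2, fun s k hs => ?_⟩
      rw [hs, hz3, h, one_mul, Units.val_neg, Units.val_one, zpow_one, zpow_neg, map_inv, map_inv]
      group
    · obtain ⟨z, hz, hz2, hz3⟩ := hpair (a i) (b i) (-(ε i * δ i))
      refine ⟨z, hz, hz2, fun s k hs => ?_⟩
      rw [hs, hz3, h, neg_one_mul, neg_neg, Units.val_neg, Units.val_one, zpow_neg, zpow_one]
      group
  choose l hl hl2 hl3 using hex
  obtain ⟨t, ht⟩ := graph_solve (lin G) (fun x hx h => lin_fix x hx h) n (Finset.univ : Finset (Fin n))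
    (by simp) p q l (fun e _ => hl e) (by
      intro b'
      obtain ⟨T, hT⟩ := surj_of_det w hdet (fun e => sg (ε e) * b' e)
      refine ⟨T, fun e _ => ?_⟩
      have h1 := hT e
      have h2 : ∀ i, ((Multiplicative.toAdd (eta G i (w e)) : ℤ) : ℚ) =
          (if p e = i then sg (ε e) else 0) + (if q e = i then sg (δ e) else 0) := by
        intro i
        rw [hw]
        simp only [eta, map_mul, Coprod.lift_apply_inl, Coprod.lift_apply_inr, map_zpow,
          FreeGroup.lift_apply_of, MonoidHom.one_apply, mul_one, toAdd_mul, toAdd_zpow]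
        split_ifs <;> simp [sg]
      have h3 : ∑ i, ((Multiplicative.toAdd (eta G i (w e)) : ℤ) : ℚ) * T i =
          sg (ε e) * T (p e) + sg (δ e) * T (q e) := by
        simp only [h2, add_mul, ite_mul, zero_mul, Finset.sum_add_distrib, Finset.sum_ite_eq,
          Finset.mem_univ, if_true]
      rw [h3] at h1
      rw [hl2]
      have h4 : sg (-(ε e * δ e)) = - (sg (ε e) * sg (δ e)) := by
        simp [sg]
      have h5 := sg_sq (ε e)
      rw [h4]
      linear_combination (sg (ε e)) * h1 + (b' e - T (p e)) * h5)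
  refine ⟨Bool, ⟨true⟩, t, fun i => ?_⟩
  rw [hw]
  simp only [map_mul, Coprod.lift_apply_inl, Coprod.lift_apply_inr, map_zpow,
    FreeGroup.lift_apply_of]
  exact hl3 i (t (p i)) (t (q i)) (ht i (Finset.mem_univ i))

end Q9.KE
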