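import Pool.Agent.Q9.KE.Frame

/-!
# Solutions over groups of class two
-/

set_option autoImplicit false

namespace Q9.KE

open Pool.Agent.Y462.SS (Wr)
open Monoid Equiv

variable {ι : Type} [DecidableEq ι] [Fintype ι]

section frame

theorem ac_zj (w : ι → FreeGroup ι) (hw : (Em w).det ≠ 0) (a : GR ι) (j l : ι) (x : ι → ℤ) :
    ac ι a (zj w j) (x + (cr ι (w l)).k) =
      ac ι a (zj w j) x + (if j = l then ac ι a (z0 w) x else 0) := by
  rw [← ac_mo_mul, mul_comm, map_mul, Module.End.mul_apply]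
  have h1 : ac ι (mo (cr ι (w l)).k) (zj w j) = zj w j + (if j = l then z0 w else 0) := by
    funext y
    rw [ac_mo, zj_add w hw, Pi.add_apply]
    congr 1
    split_ifs <;> rfl
  rw [h1, map_add, Pi.add_apply]
  congr 1
  split_ifs
  · rfl
  · rw [map_zero, Pi.zero_apply]

theorem ac_unit (w : ι → FreeGroup ι) (hw : (Em w).det ≠ 0) (i j : ι) (x : ι → ℤ) :
    ac ι (Dm w).det (zj w j) (x + Pi.single i 1) - ac ι (Dm w).det (zj w j) x =
      ac ι ((Dm w).adjugate i j) (z0 w) x := by
  have h2 : ac ι ((mo (Pi.single i 1) - 1) * (Dm w).det) (zj w j) x =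
      ac ι ((Dm w).adjugate i j) (z0 w) x := by
    rw [fox_det, map_sum, LinearMap.sum_apply, Finset.sum_apply, Finset.sum_eq_single j]
    · rw [map_mul, Module.End.mul_apply]
      have h3 : ac ι (mo (cr ι (w j)).k - 1) (zj w j) = z0 w := by
        funext y
        rw [map_sub, map_one, LinearMap.sub_apply, Module.End.one_apply, Pi.sub_apply, ac_mo,
          zj_add w hw, if_pos rfl, add_sub_cancel_left]
      rw [h3]
    · intro l _ hl
      rw [map_mul, Module.End.mul_apply]
      have h3 : ac ι (mo (cr ι (w l)).k - 1) (zj w j) = 0 := by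
        funext y
        rw [map_sub, map_one, LinearMap.sub_apply, Module.End.one_apply, Pi.sub_apply, ac_mo,
          zj_add w hw, if_neg (Ne.symm hl), add_zero, sub_self, Pi.zero_apply]
      rw [h3, map_zero, Pi.zero_apply]
    · intro h
      exact absurd (Finset.mem_univ j) h
  rw [← h2, sub_mul, one_mul, map_sub, LinearMap.sub_apply, Pi.sub_apply, ac_mo_mul]

/-- the integral functions -/
theorem exists_frame (w : ι → FreeGroup ι) (hw : (Em w).det ≠ 0) :
    ∃ (φ : ι → (ι → ℤ) → ℤ) (r : ι → ι → ι → (ι → ℤ) → ℤ),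
      (∀ j l x, φ j (x + (cr ι (w l)).k) = φ j x + (if j = l then 1 else 0)) ∧
      (∀ j₀ i j₁ l x, r j₀ i j₁ (x + (cr ι (w l)).k) = r j₀ i j₁ x -
        (if j₀ = l then φ j₁ (x + Pi.single i 1) - φ j₁ x else 0)) ∧
      (∀ j₀ j₁ j x, ∑ i, ac ι ((cr ι (w j)).a i) (r j₀ i j₁) x =
        if j = j₁ then - φ j₀ x else 0) := by
  obtain ⟨ε, hε, hε'⟩ := exists_sign w hw
  refine ⟨fun j => ε • ac ι (Dm w).det (zj w j),
    fun j₀ i j₁ => (-ε) • ac ι ((Dm w).adjugate i j₁) (zj w j₀), ?_, ?_, ?_⟩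
  · intro j l x
    show ε * ac ι (Dm w).det (zj w j) (x + (cr ι (w l)).k) = ε * ac ι (Dm w).det (zj w j) x + _
    rw [ac_zj w hw, mul_add, hε' x]
    congr 1
    split_ifs
    · exact hε
    · rw [mul_zero]
  · intro j₀ i j₁ l x
    show -ε * ac ι ((Dm w).adjugate i j₁) (zj w j₀) (x + (cr ι (w l)).k) =
      -ε * ac ι ((Dm w).adjugate i j₁) (zj w j₀) x -
        (if j₀ = l then ε * ac ι (Dm w).det (zj w j₁) (x + Pi.single i 1) -
          ε * ac ι (Dm w).det (zj w j₁) x else 0)
    rw [ac_zj w hw, mul_add, sub_eq_add_neg]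
    congr 1
    split_ifs
    · rw [← mul_sub, ac_unit w hw, neg_mul]
    · rw [mul_zero, neg_zero]
  · intro j₀ j₁ j x
    have h1 : ∑ i, ac ι ((cr ι (w j)).a i) ((-ε) • ac ι ((Dm w).adjugate i j₁) (zj w j₀)) x =
        (-ε) • ac ι ((Dm w * (Dm w).adjugate) j j₁) (zj w j₀) x := by
      rw [Matrix.mul_apply, map_sum, LinearMap.sum_apply, Finset.sum_apply, Finset.smul_sum]
      apply Finset.sum_congr rfl
      intro i _
      rw [map_smul, map_mul, Module.End.mul_apply]
      rfl
    have h2 : (Dm w * (Dm w).adjugate) j j₁ = if j = j₁ then (Dm w).det else 0 := by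
      rw [Matrix.mul_adjugate, Matrix.smul_apply, Matrix.one_apply]
      split_ifs
      · exact mul_one _
      · exact mul_zero _
    rw [h1, h2]
    split_ifs
    · rw [neg_smul]
      rfl
    · rw [map_zero, LinearMap.zero_apply, Pi.zero_apply, smul_zero]

end frame

section th

variable {C : Type} [Group C]

/-- the homomorphism to the wreath product over the lattice -/
def Th (F : ι → (ι → ℤ) → C) : FreeGroup ι →* Wr (ι → ℤ) C :=
  FreeGroup.lift (fun i => ⟨F i, Equiv.addRight (Pi.single i 1)⟩)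

omit [Fintype ι] in
theorem Th_of (F : ι → (ι → ℤ) → C) (i : ι) :
    Th F (FreeGroup.of i) = ⟨F i, Equiv.addRight (Pi.single i 1)⟩ := by
  rw [Th, FreeGroup.lift_apply_of]

omit [Fintype ι] in
theorem Th_p (F : ι → (ι → ℤ) → C) (u : FreeGroup ι) :
    (Th F u).p = Equiv.addRight (cr ι u).k := by
  induction u using FreeGroup.induction_on with
  | C1 =>
    rw [map_one, map_one, Cr.one_k]
    ext x i
    simp
  | of i => rw [Th_of, cr_of]
  | inv_of i h =>
    rw [map_inv, map_inv, Wr.inv_p, h, Cr.inv_k]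
    ext x i
    simp
  | mul u v hu hv =>
    rw [map_mul, map_mul, Wr.mul_p, hu, hv, Cr.mul_k]
    ext x i
    simp only [coe_addRight, Pi.add_apply, Perm.coe_mul, Function.comp_apply]
    ring

omit [Fintype ι] in
theorem Th_mul_s (F : ι → (ι → ℤ) → C) (u v : FreeGroup ι) (x : ι → ℤ) :
    (Th F (u * v)).s x = (Th F u).s (x + (cr ι v).k) * (Th F v).s x := by
  rw [map_mul, Wr.mul_s, Th_p]
  rfl

omit [Fintype ι] in
theorem Th_inv_s (F : ι → (ι → ℤ) → C) (u : FreeGroup ι) (x : ι → ℤ) :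
    (Th F u⁻¹).s x = ((Th F u).s (x + -(cr ι u).k))⁻¹ := by
  rw [map_inv, Wr.inv_s, Th_p]
  rfl

omit [Fintype ι] in
/-- central corrections -/
theorem Th_central (F : ι → (ι → ℤ) → C) (ρ : ι → (ι → ℤ) → Subgroup.center C)
    (u : FreeGroup ι) (x : ι → ℤ) :
    (Th (fun i x => F i x * (ρ i x : C)) u).s x = (Th F u).s x * ((Th ρ u).s x : C) := by
  have hcen : ∀ (z : Subgroup.center C) (c : C), (z : C) * c = c * z := fun z c =>
    (Subgroup.mem_center_iff.1 z.2 c).symm
  induction u using FreeGroup.induction_on generalizing x with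
  | C1 =>
    rw [map_one, map_one, map_one]
    exact (mul_one _).symm
  | of i => rw [Th_of, Th_of, Th_of]
  | inv_of i h =>
    rw [Th_inv_s, Th_inv_s, Th_inv_s, h, mul_inv_rev, Subgroup.coe_inv, ← Subgroup.coe_inv, hcen]
  | mul u v hu hv =>
    rw [Th_mul_s, Th_mul_s, Th_mul_s, hu, hv, Subgroup.coe_mul, mul_assoc,
      ← mul_assoc _ _ ((Th ρ v).s x : C), hcen, mul_assoc, mul_assoc]


omit [Fintype ι] in
theorem Th_map {M : Type} [Group M] (χ : C →* M) (F : ι → (ι → ℤ) → C) (u : FreeGroup ι)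
    (x : ι → ℤ) : (Th (fun i x => χ (F i x)) u).s x = χ ((Th F u).s x) := by
  induction u using FreeGroup.induction_on generalizing x with
  | C1 => rw [map_one, map_one, Wr.one_s, Wr.one_s, map_one]
  | of i => rw [Th_of, Th_of]
  | inv_of i h => rw [Th_inv_s, Th_inv_s, h, map_inv]
  | mul u v hu hv => rw [Th_mul_s, Th_mul_s, hu, hv, map_mul]

omit [Fintype ι] in
/-- change of the gauge -/
theorem Th_gauge (F : ι → (ι → ℤ) → C) (γ : (ι → ℤ) → C) (u : FreeGroup ι) (x : ι → ℤ) :
    (Th (fun i x => γ (x + Pi.single i 1) * F i x * (γ x)⁻¹) u).s x =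
      γ (x + (cr ι u).k) * (Th F u).s x * (γ x)⁻¹ := by
  induction u using FreeGroup.induction_on generalizing x with
  | C1 =>
    rw [map_one, map_one, map_one, Cr.one_k, add_zero]
    show 1 = γ x * 1 * (γ x)⁻¹
    rw [mul_one, mul_inv_cancel]
  | of i => rw [Th_of, Th_of, cr_of]
  | inv_of i h =>
    rw [Th_inv_s, Th_inv_s, h, map_inv, Cr.inv_k, neg_add_cancel_right]
    group
  | mul u v hu hv =>
    rw [Th_mul_s, Th_mul_s, hu, hv, map_mul, Cr.mul_k, add_comm (cr ι u).k, add_assoc]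
    group

/-- powers of commuting elements -/
theorem Th_pow {Z : Type} [CommGroup Z] (z : ι → Z) (r : ι → ι → (ι → ℤ) → ℤ) (u : FreeGroup ι)
    (x : ι → ℤ) : (Th (fun i x => ∏ j, z j ^ (r i j x)) u).s x =
      ∏ j, z j ^ (∑ i, ac ι ((cr ι u).a i) (r i j) x) := by
  induction u using FreeGroup.induction_on generalizing x with
  | C1 => simp [Cr.one_a]
  | of i =>
    rw [Th_of, cr_of]
    apply Finset.prod_congr rfl
    intro j _
    rw [Finset.sum_eq_single i]
    · show _ = z j ^ (ac ι ((Pi.single i 1 : ι → GR ι) i) (r i j) x)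
      rw [Pi.single_eq_same, map_one, Module.End.one_apply]
    · intro l _ hl
      show ac ι ((Pi.single i 1 : ι → GR ι) l) (r l j) x = 0
      rw [Pi.single_eq_of_ne hl, map_zero, LinearMap.zero_apply, Pi.zero_apply]
    · intro h
      exact absurd (Finset.mem_univ i) h
  | inv_of i h =>
    rw [Th_inv_s, h, map_inv, ← Finset.prod_inv_distrib]
    apply Finset.prod_congr rfl
    intro j _
    rw [← zpow_neg, ← Finset.sum_neg_distrib]
    congr 1
    apply Finset.sum_congr rfl
    intro l _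
    rw [Cr.inv_a, map_neg, LinearMap.neg_apply, Pi.neg_apply, ac_mo_mul]
  | mul u v hu hv =>
    rw [Th_mul_s, hu, hv, map_mul, ← Finset.prod_mul_distrib]
    apply Finset.prod_congr rfl
    intro j _
    rw [← zpow_add, ← Finset.sum_add_distrib]
    congr 1
    apply Finset.sum_congr rfl
    intro l _
    rw [Cr.mul_a, map_add, LinearMap.add_apply, Pi.add_apply, ac_mo_mul]

end th

end Q9.KE
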