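import Pool.Agent.Q9.KE.Main

/-!
# Positive equations
-/

set_option autoImplicit false

namespace Q9.KE

open Pool.Agent.Y462.SS (Wr)
open Monoid Equiv

variable {G : Type} [Group G]

/-- words which are the inverses of themselves -/
theorem pal (b : ℤ → G) : ∀ (l : ℕ) (s : ℤ),
    ((List.range (l + 1)).map (fun k : ℕ => (b (s + l - k))⁻¹ * b (s + k))).prod = 1
  | 0, s => by simp
  | 1, s => by
    simp only [List.range_succ, List.range_zero, List.nil_append, List.cons_append, List.map_cons,
      List.map_nil, List.prod_cons, List.prod_nil, Nat.cast_one, Nat.cast_zero, sub_zero, add_zero,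
      add_sub_cancel_right]
    group
  | l + 2, s => by
    have ih := pal b l (s + 1)
    rw [List.range_succ, List.map_append, List.prod_append, List.range_succ_eq_map, List.map_cons,
      List.prod_cons, List.map_map]
    have h1 : (List.map ((fun k : ℕ => (b (s + ↑(l + 2) - ↑k))⁻¹ * b (s + ↑k)) ∘ Nat.succ)
        (List.range (l + 1))).prod = 1 := by
      rw [← ih]
      congr 1
      apply List.map_congr_left
      intro k _
      show (b (s + ((l + 2 : ℕ) : ℤ) - ((k + 1 : ℕ) : ℤ)))⁻¹ * b (s + ((k + 1 : ℕ) : ℤ)) =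
        (b (s + 1 + l - k))⁻¹ * b (s + 1 + k)
      congr 2
      · congr 1
        push_cast
        ring
      · push_cast
        ring
    rw [h1]
    simp only [List.map_cons, List.map_nil, List.prod_cons, List.prod_nil, Nat.cast_zero, sub_zero,
      add_zero, mul_one, add_sub_cancel_right]
    rw [mul_assoc, ← mul_assoc (b s), mul_inv_cancel, one_mul, inv_mul_cancel]

/-- the product over a period -/
theorem pal_period (N : ℕ) (b : ℤ → G) (hb : ∀ z, b (z + N) = b z) (y : ℕ) (hy : y < N) :
    ((List.range N).map (fun k : ℕ => (b (y - k))⁻¹ * b k)).prod = 1 := by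
  obtain ⟨m, rfl⟩ := Nat.exists_eq_add_of_lt hy
  have h1 : y + m + 1 = (y + 1) + m := by ring
  rw [h1, List.range_add, List.map_append, List.prod_append, List.map_map]
  have h2 := pal b y 0
  simp only [zero_add] at h2
  rw [h2, one_mul]
  rcases m with _ | m
  · simp
  · have h3 := pal b m (y + 1)
    rw [← h3]
    congr 1
    apply List.map_congr_left
    intro k _
    show (b ((y : ℤ) - ((y + 1 + k : ℕ) : ℤ)))⁻¹ * b ((y + 1 + k : ℕ) : ℤ) =
      (b (y + 1 + m - k))⁻¹ * b (y + 1 + k)
    congr 2
    · rw [← hb]
      congr 1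
      push_cast
      ring

/-- the solution -/
def ps (m : ℕ) (a : ℕ → G) : Wr (ZMod (m + 1)) G :=
  ⟨fun x => (a (x - 1).val)⁻¹, Equiv.addRight 1⟩

theorem ps_prod (m : ℕ) (a : ℕ → G) (j : ℕ) :
    (((List.range j).map (fun k => ps m a * dg (ZMod (m + 1)) G (a k))).prod).p =
        Equiv.addRight (j : ZMod (m + 1)) ∧
      ∀ x, (((List.range j).map (fun k => ps m a * dg (ZMod (m + 1)) G (a k))).prod).s x =
        ((List.range j).map (fun k : ℕ => (a (x - 1 + j - 1 - k).val)⁻¹ * a k)).prod := by
  induction j with
  | zero =>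
    refine ⟨?_, fun x => rfl⟩
    ext x
    simp
  | succ j ih =>
    rw [List.range_succ, List.map_append, List.prod_append]
    refine ⟨?_, fun x => ?_⟩
    · rw [Wr.mul_p, ih.1]
      ext x
      simp only [List.map_cons, List.map_nil, List.prod_cons, List.prod_nil, mul_one, Wr.mul_p]
      show x + 1 + (j : ZMod (m + 1)) = x + ((j + 1 : ℕ) : ZMod (m + 1))
      push_cast
      ring
    · rw [Wr.mul_s, ih.2, List.map_append, List.prod_append]
      simp only [List.map_cons, List.map_nil, List.prod_cons, List.prod_nil, mul_one]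
      congr 1
      · congr 1
        apply List.map_congr_left
        intro k _
        have h1 : (ps m a * dg (ZMod (m + 1)) G (a j)).p x = x + 1 := rfl
        rw [h1]
        congr 3
        push_cast
        ring_nf
      · show (a (x - 1).val)⁻¹ * a j = (a (x - 1 + ((j + 1 : ℕ) : ZMod (m + 1)) - 1 - j).val)⁻¹ * a j
        congr 3
        push_cast
        ring_nf

theorem ps_eq (m : ℕ) (a : ℕ → G) :
    ((List.range (m + 1)).map (fun k => ps m a * dg (ZMod (m + 1)) G (a k))).prod = 1 := by
  obtain ⟨h1, h2⟩ := ps_prod m a (m + 1)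
  apply Wr.ext
  · funext x
    rw [h2]
    have h3 := pal_period (m + 1) (fun z : ℤ => a ((z : ZMod (m + 1))).val) (by
      intro z
      push_cast
      congr 2
      have h4 : ((m : ZMod (m + 1)) + 1) = 0 := by
        have h5 := ZMod.natCast_self (m + 1)
        push_cast at h5
        exact h5
      rw [h4, add_zero]) (x - 2).val (ZMod.val_lt _)
    show _ = (1 : G)
    rw [← h3]
    congr 1
    apply List.map_congr_left
    intro k hk
    congr 2
    · congr 2
      push_cast
      rw [ZMod.natCast_zmod_val]
      have h5 := ZMod.natCast_self (m + 1)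
      push_cast at h5
      rw [h5]
      ring_nf
    · rw [Int.cast_natCast, ZMod.val_natCast_of_lt (List.mem_range.1 hk)]
  · rw [h1]
    ext x
    rw [ZMod.natCast_self]
    simp

/-- the wreath product acts on one coordinate -/
def cm {ι : Type} [DecidableEq ι] (X : ι → Type) (i : ι) : Wr (X i) G →* Wr (∀ i, X i) G where
  toFun σ := ⟨fun ξ => σ.s (ξ i), ⟨fun ξ => Function.update ξ i (σ.p (ξ i)),
    fun ξ => Function.update ξ i (σ.p⁻¹ (ξ i)),
    fun ξ => by
      show Function.update (Function.update ξ i (σ.p (ξ i))) i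
        (σ.p⁻¹ (Function.update ξ i (σ.p (ξ i)) i)) = ξ
      rw [Function.update_idem, Function.update_self]
      show Function.update ξ i (σ.p.symm (σ.p (ξ i))) = ξ
      rw [Equiv.symm_apply_apply, Function.update_eq_self],
    fun ξ => by
      show Function.update (Function.update ξ i (σ.p⁻¹ (ξ i))) i
        (σ.p (Function.update ξ i (σ.p⁻¹ (ξ i)) i)) = ξ
      rw [Function.update_idem, Function.update_self]
      show Function.update ξ i (σ.p (σ.p.symm (ξ i))) = ξ
      rw [Equiv.apply_symm_apply, Function.update_eq_self]⟩⟩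
  map_one' := by
    apply Wr.ext
    · rfl
    · ext1 ξ
      show Function.update ξ i (ξ i) = ξ
      rw [Function.update_eq_self]
  map_mul' σ τ := by
    apply Wr.ext
    · funext ξ
      show σ.s (τ.p (ξ i)) * τ.s (ξ i) = σ.s (Function.update ξ i (τ.p (ξ i)) i) * τ.s (ξ i)
      rw [Function.update_self]
    · ext1 ξ
      show Function.update ξ i (σ.p (τ.p (ξ i))) =
        Function.update (Function.update ξ i (τ.p (ξ i))) i
          (σ.p (Function.update ξ i (τ.p (ξ i)) i))
      rw [Function.update_idem, Function.update_self]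

theorem cm_dg {ι : Type} [DecidableEq ι] (X : ι → Type) (i : ι) (g : G) :
    cm X i (dg (X i) G g) = dg (∀ i, X i) G g := by
  apply Wr.ext
  · rfl
  · ext1 ξ
    show Function.update ξ i (ξ i) = ξ
    rw [Function.update_eq_self]

/-- positive equations, each in its own unknown -/
theorem solve_of_pos {n : ℕ} (m : Fin n → ℕ) (a : Fin n → ℕ → G)
    (w : Fin n → Coprod G (FreeGroup (Fin n)))
    (hw : ∀ i, w i = ((List.range (m i + 1)).map
      (fun k => Coprod.inr (FreeGroup.of i) * Coprod.inl (a i k))).prod) :
    ∃ (X : Type) (_ : Nonempty X) (t : Fin n → Wr X G), ∀ i,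
      Coprod.lift (dg X G) (FreeGroup.lift t) (w i) = 1 := by
  refine ⟨∀ i, ZMod (m i + 1), ⟨fun _ => 0⟩,
    fun i => cm (fun i => ZMod (m i + 1)) i (ps (m i) (a i)), fun i => ?_⟩
  rw [hw, map_list_prod, List.map_map]
  have h1 := congrArg (cm (G := G) (fun i => ZMod (m i + 1)) i) (ps_eq (m i) (a i))
  rw [map_one, map_list_prod, List.map_map] at h1
  rw [← h1]
  congr 1
  apply List.map_congr_left
  intro k _
  rw [Function.comp_apply, Function.comp_apply, map_mul, map_mul, Coprod.lift_apply_inl,
    Coprod.lift_apply_inr, FreeGroup.lift_apply_of, cm_dg]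

end Q9.KE
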